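import Mathlib

set_option autoImplicit false

namespace Pool.Agent.H.MP_620157_al

open scoped PowerSeries Polynomial Topology
open PowerSeries Filter

theorem alg_eq (p : ℚ[X]) : algebraMap ℚ[X] ℚ⟦X⟧ p = (p : ℚ⟦X⟧) := by
  rw [PowerSeries.algebraMap_apply']; simp

def Good (z : ℝ) (f : ℚ⟦X⟧) : Prop := Summable fun n => ‖((coeff n f : ℚ) : ℝ) * z ^ n‖
noncomputable def evS (z : ℝ) (f : ℚ⟦X⟧) : ℝ := ∑' n, ((coeff n f : ℚ) : ℝ) * z ^ n

theorem good_add {z : ℝ} {f g : ℚ⟦X⟧} (hf : Good z f) (hg : Good z g) :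
    Good z (f + g) ∧ evS z (f + g) = evS z f + evS z g := by
  have e : ∀ n, ((coeff n (f + g) : ℚ) : ℝ) * z ^ n =
      ((coeff n f : ℚ) : ℝ) * z ^ n + ((coeff n g : ℚ) : ℝ) * z ^ n := by
    intro n; rw [map_add]; push_cast; ring
  constructor
  · simp only [Good, e]
    exact Summable.of_nonneg_of_le (fun _ => norm_nonneg _) (fun n => norm_add_le _ _) (hf.add hg)
  · simp only [evS, e]
    exact hf.of_norm.tsum_add hg.of_norm

theorem good_mul {z : ℝ} {f g : ℚ⟦X⟧} (hf : Good z f) (hg : Good z g) :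
    Good z (f * g) ∧ evS z (f * g) = evS z f * evS z g := by
  have e : ∀ n, ((coeff n (f * g) : ℚ) : ℝ) * z ^ n =
      ∑ kl ∈ Finset.HasAntidiagonal.antidiagonal n,
        (((coeff kl.1 f : ℚ) : ℝ) * z ^ kl.1) * (((coeff kl.2 g : ℚ) : ℝ) * z ^ kl.2) := by
    intro n
    rw [coeff_mul, Rat.cast_sum, Finset.sum_mul]
    refine Finset.sum_congr rfl fun kl h => ?_
    rw [← Finset.HasAntidiagonal.mem_antidiagonal.mp h, pow_add]
    push_cast; ring
  have h1 := summable_norm_sum_mul_antidiagonal_of_summable_norm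
    (f := fun n => ((coeff n f : ℚ) : ℝ) * z ^ n) (g := fun n => ((coeff n g : ℚ) : ℝ) * z ^ n) hf hg
  have h2 := tsum_mul_tsum_eq_tsum_sum_antidiagonal_of_summable_norm
    (f := fun n => ((coeff n f : ℚ) : ℝ) * z ^ n) (g := fun n => ((coeff n g : ℚ) : ℝ) * z ^ n) hf hg
  constructor
  · exact h1.congr fun n => by rw [e n]
  · exact (tsum_congr e).trans h2.symm

theorem good_poly (z : ℝ) (p : ℚ[X]) :
    Good z (p : ℚ⟦X⟧) ∧ evS z (p : ℚ⟦X⟧) = Polynomial.aeval z p := by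
  have h0 : ∀ n ∉ Finset.range (p.natDegree + 1), ((coeff n (p : ℚ⟦X⟧) : ℚ) : ℝ) * z ^ n = 0 := by
    intro n hn
    rw [Polynomial.coeff_coe, Polynomial.coeff_eq_zero_of_natDegree_lt (by simpa using hn)]
    simp
  constructor
  · exact summable_of_ne_finset_zero (s := Finset.range (p.natDegree + 1))
      fun n hn => by rw [h0 n hn, norm_zero]
  · rw [evS, tsum_eq_sum h0, Polynomial.aeval_eq_sum_range]
    refine Finset.sum_congr rfl fun n _ => ?_
    rw [Polynomial.coeff_coe, Rat.smul_def]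

theorem good_aeval {z : ℝ} {f : ℚ⟦X⟧} (hf : Good z f) (P : ℚ[X][X]) :
    Good z (Polynomial.aeval f P) ∧ evS z (Polynomial.aeval f P) =
      P.eval₂ (Polynomial.aeval z : ℚ[X] →ₐ[ℚ] ℝ).toRingHom (evS z f) := by
  induction P using Polynomial.induction_on with
  | C a => rw [Polynomial.aeval_C, alg_eq, Polynomial.eval₂_C]; exact good_poly z a
  | add p q hp hq =>
    rw [map_add, Polynomial.eval₂_add, ← hp.2, ← hq.2]; exact good_add hp.1 hq.1
  | monomial n a h =>
    rw [pow_succ, ← mul_assoc, map_mul, Polynomial.aeval_X, Polynomial.eval₂_mul,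
      Polynomial.eval₂_X, ← h.2]
    exact good_mul h.1 hf

theorem exP (Y : ℚ⟦X⟧) (h : IsAlgebraic ℚ[X] Y) : ∃ P : ℚ[X][X], Polynomial.aeval Y P = 0 ∧
    P.map (Polynomial.evalRingHom (1 / 2 : ℚ)) ≠ 0 := by
  obtain ⟨P, hP, h0⟩ := h
  induction hn : P.leadingCoeff.natDegree using Nat.strong_induction_on generalizing P with
  | _ n ih =>
  by_cases hm : P.map (Polynomial.evalRingHom (1 / 2 : ℚ)) = 0
  · have hd : (Polynomial.C (Polynomial.X - Polynomial.C (1 / 2 : ℚ)) : ℚ[X][X]) ∣ P := by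
      rw [Polynomial.C_dvd_iff_dvd_coeff]
      intro i
      rw [Polynomial.dvd_iff_isRoot]
      have := congrArg (fun q : ℚ[X] => q.coeff i) hm
      simpa using this
    obtain ⟨P1, rfl⟩ := hd
    have hP1 : P1 ≠ 0 := right_ne_zero_of_mul hP
    refine ih _ ?_ P1 hP1 ?_ rfl
    · rw [← hn, Polynomial.leadingCoeff_mul, Polynomial.leadingCoeff_C,
        Polynomial.natDegree_mul (Polynomial.X_sub_C_ne_zero _)
          (Polynomial.leadingCoeff_ne_zero.mpr hP1), Polynomial.natDegree_X_sub_C]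
      omega
    · rw [map_mul, Polynomial.aeval_C] at h0
      refine (mul_eq_zero.mp h0).resolve_left ?_
      rw [alg_eq, Polynomial.coe_eq_zero_iff]
      exact Polynomial.X_sub_C_ne_zero _
  · exact ⟨P, h0, hm⟩

theorem seq_contra (z Y : ℕ → ℝ) (hz : Tendsto z atTop (𝓝 (1 / 2)))
    (hY : Tendsto Y atTop atTop) (hε : ∀ n : ℕ, Tendsto (fun h => (z h - 1 / 2) * Y h ^ n) atTop (𝓝 0))
    (P : ℚ[X][X]) (hP : P.map (Polynomial.evalRingHom (1 / 2 : ℚ)) ≠ 0)
    (h0 : ∀ h, P.eval₂ (Polynomial.aeval (z h) : ℚ[X] →ₐ[ℚ] ℝ).toRingHom (Y h) = 0) : False := by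
  have h1 : ∀ Q : ℚ[X][X], Tendsto (fun h =>
      Q.eval₂ (Polynomial.aeval (z h) : ℚ[X] →ₐ[ℚ] ℝ).toRingHom (Y h) -
      ((Q.map (Polynomial.evalRingHom (1 / 2 : ℚ))).map (algebraMap ℚ ℝ)).eval (Y h))
      atTop (𝓝 0) := by
    intro Q
    induction Q using Polynomial.induction_on' with
    | add p q hp hq =>
      have := hp.add hq
      rw [add_zero] at this
      refine this.congr fun h => ?_
      simp only [Polynomial.eval₂_add, Polynomial.map_add, Polynomial.eval_add]; ring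
    | monomial n a =>
      obtain ⟨a1, ha⟩ := Polynomial.X_sub_C_dvd_sub_C_eval (a := (1 / 2 : ℚ)) (p := a)
      have hc : Tendsto (fun h => Polynomial.aeval (z h) a1) atTop
          (𝓝 (Polynomial.aeval (1 / 2 : ℝ) a1)) := (a1.continuous_aeval.tendsto _).comp hz
      have := (hε n).mul hc
      rw [zero_mul] at this
      refine this.congr fun h => ?_
      have e := congrArg (Polynomial.aeval (z h)) ha
      simp only [map_sub, map_mul, Polynomial.aeval_X, Polynomial.aeval_C] at e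
      simp only [Polynomial.eval₂_monomial, Polynomial.map_monomial, Polynomial.eval_monomial,
        AlgHom.toRingHom_eq_coe, RingHom.coe_coe, Polynomial.coe_evalRingHom]
      have e2 : algebraMap ℚ ℝ (1 / 2) = 1 / 2 := by simp
      rw [e2] at e
      linear_combination (-(Y h ^ n)) * e
  set q := (P.map (Polynomial.evalRingHom (1 / 2 : ℚ))).map (algebraMap ℚ ℝ) with hq
  have hq0 : q ≠ 0 := (Polynomial.map_ne_zero_iff (algebraMap ℚ ℝ).injective).mpr hP
  have h2 := (h1 P).abs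
  simp only [h0, zero_sub, abs_neg, abs_zero] at h2
  by_cases hd : 0 < q.degree
  · exact not_tendsto_atTop_of_tendsto_nhds h2 ((q.abs_tendsto_atTop hd).comp hY)
  · rw [← hq, Polynomial.eq_C_of_degree_le_zero (not_lt.mp hd)] at h2
    simp only [Polynomial.eval_C, tendsto_const_nhds_iff, abs_eq_zero] at h2
    apply hq0
    rw [Polynomial.eq_C_of_degree_le_zero (not_lt.mp hd), h2, map_zero]

theorem nonalg (T : ℚ⟦X⟧) (h0 : ∀ n, 0 ≤ coeff n T)
    (hlow : ∀ m : ℕ, ∃ n0, ∀ n, n0 ≤ n → (m : ℚ) * 2 ^ n ≤ coeff n T)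
    (C : ℚ) (hup : ∀ j n : ℕ, coeff n T ≤ C * 2 ^ n * (j + 1 + n / 4 ^ j)) :
    ¬ IsAlgebraic ℚ[X] T := by
  intro hT
  have hC : (0 : ℝ) ≤ C := by
    have := (h0 0).trans (hup 0 0)
    simpa using this
  let ε : ℕ → ℝ := fun h => 1 / 4 ^ h
  have hε0 : ∀ h, 0 < ε h := fun h => by positivity
  have hε1 : ∀ h, ε h ≤ 1 := fun h => by
    simp only [ε]; rw [div_le_one (by positivity)]; exact one_le_pow₀ (by norm_num)
  have hεt : Tendsto ε atTop (𝓝 0) := by
    simpa [ε] using tendsto_pow_const_div_const_pow_of_one_lt 0 (r := 4) (by norm_num)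
  let r : ℕ → ℝ := fun h => 1 - ε h
  have hr0 : ∀ h, 0 ≤ r h := fun h => by simp only [r]; linarith [hε1 h]
  have hr1 : ∀ h, r h < 1 := fun h => by simp only [r]; linarith [hε0 h]
  have hrn : ∀ h, ‖r h‖ < 1 := fun h => by rw [Real.norm_of_nonneg (hr0 h)]; exact hr1 h
  let z : ℕ → ℝ := fun h => r h / 2
  let u : ℕ → ℕ → ℝ := fun h n => ((coeff n T : ℚ) : ℝ) * z h ^ n
  have hu0 : ∀ h n, 0 ≤ u h n := fun h n =>
    mul_nonneg (by exact_mod_cast h0 n) (pow_nonneg (by simp only [z]; linarith [hr0 h]) _)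
  have hub : ∀ h n, u h n ≤ C * (h + 1) * r h ^ n + C * ε h * (n * r h ^ n) := by
    intro h n
    have h1 : ((coeff n T : ℚ) : ℝ) ≤ C * 2 ^ n * (h + 1 + n / 4 ^ h) := by
      have := (Rat.cast_le (K := ℝ)).mpr (hup h n)
      push_cast at this
      exact this
    have h2 : (0 : ℝ) ≤ z h ^ n := pow_nonneg (by simp only [z]; linarith [hr0 h]) _
    refine (mul_le_mul_of_nonneg_right h1 h2).trans (le_of_eq ?_)
    simp only [z, ε, div_pow]
    field_simp
  have hS : ∀ h, HasSum (fun n : ℕ => C * (h + 1) * r h ^ n + C * ε h * (n * r h ^ n))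
      (C * (h + 1) * (1 - r h)⁻¹ + C * ε h * (r h / (1 - r h) ^ 2)) := fun h =>
    ((hasSum_geometric_of_lt_one (hr0 h) (hr1 h)).mul_left _).add
      ((hasSum_coe_mul_geometric_of_norm_lt_one (hrn h)).mul_left _)
  have hsum : ∀ h, Summable (u h) := fun h =>
    Summable.of_nonneg_of_le (hu0 h) (hub h) (hS h).summable
  have hgood : ∀ h, Good (z h) T := fun h => (hsum h).abs
  let Y : ℕ → ℝ := fun h => ε h * evS (z h) T
  have hY0 : ∀ h, 0 ≤ Y h := fun h => mul_nonneg (hε0 h).le (tsum_nonneg (hu0 h))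
  have hYu : ∀ h, Y h ≤ C * (h + 2) := by
    intro h
    have h1 : evS (z h) T ≤ _ := hasSum_le (hub h) (hsum h).hasSum (hS h)
    have h2 : 1 - r h = ε h := by simp [r]
    rw [h2] at h1
    have h3 := mul_le_mul_of_nonneg_left h1 (hε0 h).le
    have h4 : ε h * (C * (h + 1) * (ε h)⁻¹ + C * ε h * (r h / ε h ^ 2)) = C * (h + 1) + C * r h := by
      have := (hε0 h).ne'
      field_simp
    rw [h4] at h3
    have := mul_le_mul_of_nonneg_left (hr1 h).le hC
    simp only [Y]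
    linarith
  have hrt : Tendsto r atTop (𝓝 1) := by simpa using hεt.const_sub 1
  have hYt : Tendsto Y atTop atTop := by
    rw [tendsto_atTop]
    intro b
    obtain ⟨m, hm⟩ := exists_nat_gt b
    obtain ⟨n0, hn0⟩ := hlow (m + 1)
    have h1 : ∀ h, ((m : ℝ) + 1) * r h ^ n0 ≤ Y h := by
      intro h
      have h2 : HasSum (fun n => ((m : ℝ) + 1) * r h ^ n0 * r h ^ n)
          (((m : ℝ) + 1) * r h ^ n0 * (1 - r h)⁻¹) :=
        (hasSum_geometric_of_lt_one (hr0 h) (hr1 h)).mul_left _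
      have h3 : ((m : ℝ) + 1) * r h ^ n0 * (1 - r h)⁻¹ ≤ ∑' n, u h (n + n0) := by
        refine hasSum_le (fun n => ?_) h2 ((summable_nat_add_iff n0).mpr (hsum h)).hasSum
        have h4 : ((m : ℝ) + 1) * 2 ^ (n + n0) ≤ ((coeff (n + n0) T : ℚ) : ℝ) := by
          exact_mod_cast hn0 (n + n0) (by omega)
        have h5 : (0 : ℝ) ≤ z h ^ (n + n0) := pow_nonneg (by simp only [z]; linarith [hr0 h]) _
        refine le_trans (le_of_eq ?_) (mul_le_mul_of_nonneg_right h4 h5)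
        simp only [z, div_pow, pow_add]
        field_simp
      have h6 := (hsum h).sum_add_tsum_nat_add n0
      have h7 : 0 ≤ ∑ i ∈ Finset.range n0, u h i := Finset.sum_nonneg fun i _ => hu0 h i
      have h8 : ((m : ℝ) + 1) * r h ^ n0 * (1 - r h)⁻¹ ≤ evS (z h) T := by
        change _ ≤ ∑' n, u h n
        linarith
      have h9 := mul_le_mul_of_nonneg_left h8 (hε0 h).le
      have h10 : 1 - r h = ε h := by simp [r]
      have h11 := (hε0 h).ne'
      rw [h10, show ε h * (((m : ℝ) + 1) * r h ^ n0 * (ε h)⁻¹) = ((m : ℝ) + 1) * r h ^ n0 by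
        field_simp] at h9
      exact h9
    have h2 : Tendsto (fun h => ((m : ℝ) + 1) * r h ^ n0) atTop (𝓝 (((m : ℝ) + 1) * 1 ^ n0)) :=
      (hrt.pow n0).const_mul _
    filter_upwards [h2.eventually (lt_mem_nhds (show b < ((m : ℝ) + 1) * 1 ^ n0 by
      rw [one_pow]; linarith))] with h hh
    exact hh.le.trans (h1 h)
  have hY' : IsAlgebraic ℚ[X] (((1 - 2 * Polynomial.X : ℚ[X]) : ℚ⟦X⟧) * T) := by
    rw [← alg_eq]; exact (isAlgebraic_algebraMap _).mul hT
  obtain ⟨P, hP0, hP⟩ := exP _ hY'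
  refine seq_contra z Y ?_ hYt (fun n => ?_) P hP (fun h => ?_)
  · simpa using hrt.div_const 2
  · have h1 : Tendsto (fun h : ℕ => (C : ℝ) ^ n * 16 * (((h + 2 : ℕ) : ℝ) ^ n / 4 ^ (h + 2)))
        atTop (𝓝 0) := by
      have := ((tendsto_add_atTop_iff_nat 2).mpr
        (tendsto_pow_const_div_const_pow_of_one_lt n (r := 4) (by norm_num))).const_mul
          ((C : ℝ) ^ n * 16)
      rwa [mul_zero] at this
    refine squeeze_zero_norm (fun h => ?_) h1
    have e : z h - 1 / 2 = -(ε h / 2) := by simp only [z, r]; ring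
    rw [e, norm_mul, norm_neg, Real.norm_of_nonneg (by linarith [hε0 h]),
      Real.norm_of_nonneg (pow_nonneg (hY0 h) _)]
    have h2 : Y h ^ n ≤ (C * (h + 2)) ^ n := pow_le_pow_left₀ (hY0 h) (hYu h) n
    have h3 : (0 : ℝ) ≤ (C * (h + 2)) ^ n := (pow_nonneg (hY0 h) _).trans h2
    calc ε h / 2 * Y h ^ n ≤ ε h * (C * (h + 2)) ^ n :=
          mul_le_mul (by linarith [hε0 h]) h2 (pow_nonneg (hY0 h) _) (hε0 h).le
      _ = _ := by
          simp only [ε, mul_pow, pow_add]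
          push_cast
          field_simp
          norm_num
  · have h1 := good_mul (good_poly (z h) (1 - 2 * Polynomial.X)).1 (hgood h)
    have h2 := (good_aeval h1.1 P).2
    rw [hP0, h1.2, (good_poly (z h) _).2] at h2
    have e : Polynomial.aeval (z h) (1 - 2 * Polynomial.X : ℚ[X]) = ε h := by
      simp only [map_sub, map_one, map_mul, Polynomial.aeval_X, map_ofNat, z, r]; ring
    rw [e] at h2
    simp only [Y]
    rw [← h2]
    simp [evS]

theorem alg_shift (F : ℚ⟦X⟧) (h : IsAlgebraic ℚ[X] F) (k : ℕ) :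
    IsAlgebraic ℚ[X] (PowerSeries.mk fun i => coeff (i + k) F : ℚ⟦X⟧) := by
  have e := eq_X_pow_mul_shift_add_trunc k F
  have h5 : IsAlgebraic ℚ[X] ((Polynomial.X ^ k : ℚ[X]) •
      (PowerSeries.mk fun i => coeff (i + k) F : ℚ⟦X⟧)) := by
    have : (Polynomial.X ^ k : ℚ[X]) • (PowerSeries.mk fun i => coeff (i + k) F : ℚ⟦X⟧) =
        F - algebraMap ℚ[X] ℚ⟦X⟧ (F.trunc k) := by
      rw [Algebra.smul_def, alg_eq, alg_eq, eq_sub_iff_add_eq]
      push_cast
      exact e.symm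
    rw [this]
    exact h.sub (isAlgebraic_algebraMap _)
  exact h5.of_smul (mem_nonZeroDivisors_of_ne_zero (by simp))

theorem alg_rec (f g : ℕ → ℚ) (a b : ℚ) (hg : IsAlgebraic ℚ[X] (PowerSeries.mk g : ℚ⟦X⟧))
    (h : ∀ n, f (n + 2) = a * f (n + 1) + b * f n + g n) :
    IsAlgebraic ℚ[X] (PowerSeries.mk f : ℚ⟦X⟧) := by
  have e : (1 - Polynomial.C a * Polynomial.X - Polynomial.C b * Polynomial.X ^ 2 : ℚ[X]) •
      (PowerSeries.mk f : ℚ⟦X⟧) = (Polynomial.X ^ 2 : ℚ[X]) • (PowerSeries.mk g : ℚ⟦X⟧) +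
      algebraMap ℚ[X] ℚ⟦X⟧ (Polynomial.C (f 0) + Polynomial.C (f 1 - a * f 0) * Polynomial.X) := by
    simp only [Algebra.smul_def, alg_eq]
    push_cast
    ext n
    rw [sub_mul, sub_mul, one_mul, mul_assoc, mul_assoc, map_sub, map_sub, coeff_C_mul, coeff_C_mul,
      map_add, map_add, coeff_C_mul, ← pow_one (X : ℚ⟦X⟧), ← pow_mul, coeff_X_pow_mul',
      coeff_X_pow_mul', coeff_X_pow_mul', coeff_X_pow, coeff_C]
    match n with
    | 0 => simp
    | 1 => simp
    | n + 2 => simp [h]; ring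
  have h1 : IsAlgebraic ℚ[X] ((1 - Polynomial.C a * Polynomial.X -
      Polynomial.C b * Polynomial.X ^ 2 : ℚ[X]) • (PowerSeries.mk f : ℚ⟦X⟧)) := by
    rw [e]; exact (hg.smul _).add (isAlgebraic_algebraMap _)
  refine h1.of_smul (mem_nonZeroDivisors_of_ne_zero ?_)
  intro h
  have := congrArg (fun q : ℚ[X] => q.eval 0) h
  simp at this

end Pool.Agent.H.MP_620157_al
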