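import Mathlib

set_option autoImplicit false

namespace Pool.Agent.H.MP_620157_al

def Vd : List ℤ → Prop
  | [] => True
  | i :: l => 0 ≤ i ∧ i ≤ 3 ∧ (i = 0 → l = []) ∧ Vd l

def fb : List ℤ × ℤ → List ℤ × ℤ
  | ([], e) => ([e % 4], e - e % 4)
  | (i :: l, e) => if e % 4 = 0 then (l, i + e - 4) else (e % 4 :: i :: l, e - e % 4)

theorem fb_push (l : List ℤ) (e : ℤ) (h : e % 4 = 0 → l = []) :
    fb (l, e) = (e % 4 :: l, e - e % 4) := by
  cases l with
  | nil => rfl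
  | cons i l => rw [fb, if_neg (fun h' => by simpa using h h')]

theorem fb_pop (i : ℤ) (l : List ℤ) (e : ℤ) (h : e % 4 = 0) : fb (i :: l, e) = (l, i + e - 4) := by
  rw [fb, if_pos h]

theorem fb_cases (l : List ℤ) (e : ℤ) :
    (e % 4 = 0 → l = []) ∨ (e % 4 = 0 ∧ ∃ i l', l = i :: l') := by
  by_cases h : e % 4 = 0
  · cases l with
    | nil => exact Or.inl fun _ => rfl
    | cons i l => exact Or.inr ⟨h, i, l, rfl⟩
  · exact Or.inl fun h' => absurd h' h

theorem fb_vd (p : List ℤ × ℤ) (h : Vd p.1) : Vd (fb p).1 := by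
  obtain ⟨l, e⟩ := p
  rcases fb_cases l e with h1 | ⟨h1, i, l, rfl⟩
  · rw [fb_push l e h1]; exact ⟨by omega, by omega, h1, h⟩
  · rw [fb_pop i l e h1]; exact h.2.2.2

theorem fb_fb (p : List ℤ × ℤ) (h : Vd p.1) : fb (fb p) = (p.1, p.2 - 4) := by
  obtain ⟨l, e⟩ := p
  rcases fb_cases l e with h1 | ⟨h1, i, l, rfl⟩
  · rw [fb_push l e h1, fb_pop _ _ _ (by omega)]; simp
  · obtain ⟨a, b, c, _⟩ := h
    have e1 : (i + e - 4) % 4 = i := by omega
    rw [fb_pop i l e h1, fb_push _ _ (by rw [e1]; exact c), e1]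
    simp only [Prod.mk.injEq, true_and]; omega

theorem fb_sh (l : List ℤ) (e : ℤ) : fb (l, e + 4) = ((fb (l, e)).1, (fb (l, e)).2 + 4) := by
  have e1 : (e + 4) % 4 = e % 4 := by omega
  rcases fb_cases l e with h1 | ⟨h1, i, l, rfl⟩
  · rw [fb_push l e h1, fb_push l _ (by rw [e1]; exact h1), e1]
    simp only [Prod.mk.injEq, true_and]; omega
  · rw [fb_pop i l e h1, fb_pop i l _ (by omega)]
    simp only [Prod.mk.injEq, true_and]; omega

abbrev St := {p : List ℤ × ℤ // Vd p.1}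

def sh (k : ℤ) : Equiv.Perm St where
  toFun p := ⟨(p.1.1, p.1.2 + k), p.2⟩
  invFun p := ⟨(p.1.1, p.1.2 - k), p.2⟩
  left_inv p := by simp
  right_inv p := by simp

def pb : Equiv.Perm St where
  toFun p := ⟨fb p.1, fb_vd _ p.2⟩
  invFun p := ⟨((fb p.1).1, (fb p.1).2 + 4), fb_vd _ p.2⟩
  left_inv p := by apply Subtype.ext; simp [fb_fb _ p.2]
  right_inv p := by
    apply Subtype.ext
    simp only
    rw [fb_sh, Prod.mk.eta, fb_fb _ p.2]; simp

def rho : FreeGroup (Fin 2) →* Equiv.Perm St :=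
  FreeGroup.lift fun i => if i = 0 then sh 1 else pb * (sh 1)⁻¹

def rel : FreeGroup (Fin 2) :=
  FreeGroup.of 1 * FreeGroup.of 0 * (FreeGroup.of 1 * FreeGroup.of 0) * FreeGroup.of 0 ^ 4

theorem rho0 : rho (FreeGroup.of 0) = sh 1 := by simp [rho]
theorem rho1 : rho (FreeGroup.of 1) = pb * (sh 1)⁻¹ := by simp [rho]

theorem rho_rel : rho rel = 1 := by
  ext1 p
  apply Subtype.ext
  simp only [rel, map_mul, map_pow, rho0, rho1, inv_mul_cancel_right, pow_succ, pow_zero, one_mul,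
    Equiv.Perm.mul_apply, Equiv.Perm.one_apply]
  change fb (fb (p.1.1, p.1.2 + 1 + 1 + 1 + 1)) = _
  rw [fb_fb (p.1.1, p.1.2 + 1 + 1 + 1 + 1) p.2]
  exact Prod.ext rfl (by simp only; omega)

def act (x : Fin 2 × Bool) (p : List ℤ × ℤ) : List ℤ × ℤ :=
  if x.1 = 0 then (if x.2 then (p.1, p.2 + 1) else (p.1, p.2 - 1))
  else (if x.2 then fb (p.1, p.2 - 1) else ((fb p).1, (fb p).2 + 5))

theorem rho_act (x : Fin 2 × Bool) (p : St) : (rho (FreeGroup.mk [x]) p).1 = act x p.1 := by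
  obtain ⟨i, b⟩ := x
  have e1 : ∀ i : Fin 2, FreeGroup.mk [(i, true)] = FreeGroup.of i := fun _ => rfl
  have e2 : ∀ i : Fin 2, FreeGroup.mk [(i, false)] = (FreeGroup.of i)⁻¹ := fun _ => rfl
  fin_cases i <;> cases b
  · rw [e2, map_inv]; erw [rho0]; rfl
  · rw [e1]; erw [rho0]; rfl
  · rw [e2, map_inv]; erw [rho1]
    rw [mul_inv_rev, inv_inv]
    exact Prod.ext rfl (by change (fb p.1).2 + 4 + 1 = (fb p.1).2 + 5; omega)
  · rw [e1]; erw [rho1]; rfl

def X0 : St := ⟨([], 0), trivial⟩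
def ev (w : FreeGroup (Fin 2)) : List ℤ × ℤ := (rho w X0).1

theorem ev_vd (w : FreeGroup (Fin 2)) : Vd (ev w).1 := (rho w X0).2

theorem ev_cons (x : Fin 2 × Bool) (w : FreeGroup (Fin 2)) :
    ev (FreeGroup.mk [x] * w) = act x (ev w) := by
  rw [ev, map_mul, Equiv.Perm.mul_apply, rho_act]; rfl

abbrev QQ := FreeGroup (Fin 2) ⧸ Subgroup.normalClosure ({rel} : Set (FreeGroup (Fin 2)))

def xx : QQ := QuotientGroup.mk (FreeGroup.of 0)
def bb : QQ := QuotientGroup.mk (FreeGroup.of 1 * FreeGroup.of 0)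

theorem bb_sq : bb * bb = xx ^ (-4 : ℤ) := by
  have h : (QuotientGroup.mk rel : QQ) = 1 :=
    (QuotientGroup.eq_one_iff _).mpr (Subgroup.subset_normalClosure rfl)
  have h2 : bb * bb * xx ^ 4 = 1 := h
  rw [zpow_neg, eq_inv_iff_mul_eq_one]
  exact_mod_cast h2

theorem bb_comm (e : ℤ) (h : e % 4 = 0) : Commute bb (xx ^ e) := by
  obtain ⟨k, rfl⟩ : ∃ k, e = -4 * k := ⟨-(e / 4), by omega⟩
  rw [zpow_mul, ← bb_sq]
  exact ((Commute.refl bb).mul_right (Commute.refl bb)).zpow_right k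

def nf (p : List ℤ × ℤ) : QQ := xx ^ p.2 * (p.1.map fun i => bb * xx ^ i).prod

theorem nf_fb (p : List ℤ × ℤ) : nf (fb p) = bb * nf p := by
  obtain ⟨l, e⟩ := p
  rcases fb_cases l e with h1 | ⟨h1, i, l, rfl⟩
  · rw [fb_push l e h1]
    simp only [nf, List.map_cons, List.prod_cons, ← mul_assoc]
    rw [← (bb_comm (e - e % 4) (by omega)).eq, mul_assoc bb, ← zpow_add]
    simp
  · rw [fb_pop i l e h1]
    simp only [nf, List.map_cons, List.prod_cons, ← mul_assoc]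
    rw [(bb_comm e h1).eq, mul_assoc _ bb bb, bb_sq, ← zpow_add, ← zpow_add]
    congr 2; omega

theorem nf_rho (w : FreeGroup (Fin 2)) :
    ∀ p : St, nf (rho w p).1 = (QuotientGroup.mk w : QQ) * nf p.1 := by
  induction w using FreeGroup.induction_on with
  | C1 => intro p; simp
  | of i =>
    intro p
    fin_cases i
    · erw [rho0]
      change nf (p.1.1, p.1.2 + 1) = xx * nf p.1
      simp only [nf, ← mul_assoc]
      rw [add_comm, zpow_add, zpow_one]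
    · erw [rho1]
      change nf (fb (p.1.1, p.1.2 - 1)) = (QuotientGroup.mk (FreeGroup.of 1) : QQ) * nf p.1
      have : (QuotientGroup.mk (FreeGroup.of 1) : QQ) = bb * xx⁻¹ := by
        rw [eq_mul_inv_iff_mul_eq]; rfl
      rw [nf_fb, this]
      simp only [nf, ← mul_assoc]
      rw [mul_assoc bb xx⁻¹, ← zpow_neg_one, ← zpow_add]
      congr 3; omega
  | inv_of i ih =>
    intro p
    have := ih (rho (FreeGroup.of i)⁻¹ p)
    rw [← Equiv.Perm.mul_apply, ← map_mul, mul_inv_cancel, map_one, Equiv.Perm.one_apply] at this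
    rw [this, QuotientGroup.mk_inv, inv_mul_cancel_left]
  | mul v w hv hw =>
    intro p
    rw [map_mul, Equiv.Perm.mul_apply, hv, hw, QuotientGroup.mk_mul, mul_assoc]

theorem nf_ev (w : FreeGroup (Fin 2)) : nf (ev w) = (QuotientGroup.mk w : QQ) := by
  rw [ev, nf_rho]; simp [nf, X0]

theorem ev_mk (v w : FreeGroup (Fin 2)) (h : (QuotientGroup.mk v : QQ) = QuotientGroup.mk w) :
    ev v = ev w := by
  have h1 : Subgroup.normalClosure ({rel} : Set (FreeGroup (Fin 2))) ≤ rho.ker :=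
    Subgroup.normalClosure_le_normal (by rintro _ rfl; exact rho_rel)
  have h2 := h1 (QuotientGroup.eq.mp h)
  rw [MonoidHom.mem_ker, map_mul, map_inv, inv_mul_eq_one] at h2
  rw [ev, ev, h2]

def Reach (n : ℕ) (p : List ℤ × ℤ) : Prop := ∃ w, ev w = p ∧ w.toWord.length ≤ n

theorem reach0 : Reach 0 ([], 0) := ⟨1, by simp [ev, X0], by simp⟩

theorem Reach.mono {m n : ℕ} {p : List ℤ × ℤ} (h : Reach m p) (hm : m ≤ n) : Reach n p :=
  let ⟨w, a, b⟩ := h; ⟨w, a, b.trans hm⟩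

theorem Reach.step {n : ℕ} {p : List ℤ × ℤ} (h : Reach n p) (x : Fin 2 × Bool) :
    Reach (n + 1) (act x p) := by
  obtain ⟨w, rfl, b⟩ := h
  refine ⟨_, ev_cons x w, ?_⟩
  have h1 := FreeGroup.norm_mul_le (FreeGroup.mk [x]) w
  have h2 := FreeGroup.norm_mk_le (L₁ := [x])
  simp only [FreeGroup.norm, List.length_singleton] at h1 h2
  omega

theorem reach_ind (Φ : ℕ → List ℤ × ℤ → Prop) (h0 : Φ 0 ([], 0))
    (hm : ∀ n p, Φ n p → Φ (n + 1) p)
    (hs : ∀ n p x, Vd p.1 → Φ n p → Φ (n + 1) (act x p)) (n : ℕ) (p : List ℤ × ℤ) (h : Reach n p) :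
    Φ n p := by
  have h1 : ∀ L : List (Fin 2 × Bool), Φ L.length (ev (FreeGroup.mk L)) := by
    intro L
    induction L with
    | nil =>
      have : ev (FreeGroup.mk []) = ([], 0) := by
        change ev 1 = _
        simp [ev, X0]
      rw [this]; exact h0
    | cons x L ih =>
      have : FreeGroup.mk (x :: L) = FreeGroup.mk [x] * FreeGroup.mk L := rfl
      rw [this, ev_cons]
      exact hs _ _ x (ev_vd _) ih
  obtain ⟨w, rfl, b⟩ := h
  have h2 := h1 w.toWord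
  rw [FreeGroup.mk_toWord] at h2
  induction b with
  | refl => exact h2
  | step _ ih => exact hm _ _ ih

noncomputable def len (p : List ℤ × ℤ) : ℕ := sInf {n | Reach n p}

theorem len_le {n : ℕ} {p : List ℤ × ℤ} (h : Reach n p) : len p ≤ n := Nat.sInf_le h

theorem reach_len {n : ℕ} {p : List ℤ × ℤ} (h : Reach n p) : Reach (len p) p :=
  Nat.sInf_mem (s := {n | Reach n p}) ⟨n, h⟩

theorem card_eq (hall : ∀ p : List ℤ × ℤ, Vd p.1 → ∃ n, Reach n p) (k : ℕ) :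
    Nat.card {g : QQ // ∃ w : FreeGroup (Fin 2), (QuotientGroup.mk w : QQ) = g ∧
      (FreeGroup.toWord w).length = k ∧ ∀ w' : FreeGroup (Fin 2),
        (QuotientGroup.mk w' : QQ) = g → k ≤ (FreeGroup.toWord w').length} =
      Set.ncard {p : List ℤ × ℤ | Vd p.1 ∧ len p = k} := by
  rw [← Nat.card_coe_set_eq]
  symm
  refine Nat.card_eq_of_bijective (fun p => ⟨nf p.1, ?_⟩) ⟨?_, ?_⟩
  · obtain ⟨p, h1, rfl⟩ := p
    obtain ⟨n, hn⟩ := hall p h1
    obtain ⟨w, rfl, hw⟩ := reach_len hn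
    refine ⟨w, (nf_ev w).symm, le_antisymm hw (len_le ⟨w, rfl, le_rfl⟩), fun w' h => ?_⟩
    exact len_le ⟨w', ev_mk _ _ (h.trans (nf_ev w)), le_rfl⟩
  · rintro ⟨p, h1, h2⟩ ⟨q, h3, h4⟩ h
    obtain ⟨_, v, rfl, _⟩ := hall p h1
    obtain ⟨_, w, rfl, _⟩ := hall q h3
    have h5 : nf (ev v) = nf (ev w) := congrArg Subtype.val h
    rw [nf_ev, nf_ev] at h5
    exact Subtype.ext (ev_mk _ _ h5)
  · rintro ⟨g, w, rfl, h1, h2⟩
    refine ⟨⟨ev w, ev_vd w, le_antisymm (len_le ⟨w, rfl, h1.le⟩) ?_⟩, Subtype.ext (nf_ev w)⟩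
    obtain ⟨w', e, hw⟩ := reach_len (⟨w, rfl, le_rfl⟩ : Reach _ (ev w))
    exact (h2 w' (by rw [← nf_ev, e, nf_ev])).trans hw

end Pool.Agent.H.MP_620157_al
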