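import Pool.Agent.H.MP_620157_al.B

set_option autoImplicit false

namespace Pool.Agent.H.MP_620157_al

structure Dt where
  sA : Bool
  D : ℕ
  lo : ℤ
  p : ℕ
  g : ℕ

def nx (i : ℤ) (d : Dt) : Dt :=
  if i = 0 then ⟨false, d.D + 1, d.lo + 5, d.p, 1⟩
  else if d.sA then
    (if i = 3 then ⟨true, d.D + 1, d.lo - 4, d.p, 1⟩
    else if i = 2 then ⟨true, d.D + 2, d.lo - 4, d.p, d.g + 2⟩
    else ⟨false, d.D + 2, d.lo + 5, d.p + d.g, 2⟩)
  else
    (if i = 1 then ⟨false, d.D + 1, d.lo + 4, d.p, 1⟩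
    else if i = 2 then ⟨false, d.D + 2, d.lo + 4, d.p, d.g + 2⟩
    else ⟨true, d.D + 2, d.lo - 5 - 4 * d.g, d.p + d.g, 2⟩)

def dt : List ℤ → Dt
  | [] => ⟨true, 0, 0, 0, 0⟩
  | i :: l => nx i (dt l)

def vd (d : Dt) (s : ℤ) : ℕ :=
  if d.sA then (if s = 0 then d.D else if s = 2 then d.D + 2 else d.D + 1)
  else (if s = 1 then d.D else if s = 3 then d.D + 2 else d.D + 1)

def vN (d : Dt) (s : ℤ) : ℤ :=
  if d.sA then (if s = 0 then d.lo else if s = 1 then d.lo + 1 else if s = 2 then d.lo - 2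
    else d.lo - 1)
  else (if s = 0 then d.lo - 1 - 4 * d.g else if s = 1 then d.lo else if s = 2 then d.lo + 1
    else d.lo - 2 - 4 * d.g)

def vq (d : Dt) (s : ℤ) : ℕ :=
  if d.sA then (if s = 1 then d.p + d.g else if s = 2 then d.p + d.g + 1 else d.p)
  else (if s = 0 then d.p + d.g else if s = 3 then d.p + d.g + 1 else d.p)

theorem vd_cases (i : ℤ) (l : List ℤ) (h : Vd (i :: l)) :
    (i = 0 ∧ l = []) ∨ i = 1 ∨ i = 2 ∨ i = 3 := by
  obtain ⟨a, b, c, _⟩ := h
  by_cases h0 : i = 0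
  · exact Or.inl ⟨h0, c h0⟩
  · omega

theorem lo_mod (l : List ℤ) (h : Vd l) : (dt l).lo % 4 = if (dt l).sA then 0 else 1 := by
  induction l with
  | nil => rfl
  | cons i l ih =>
    have ih := ih h.2.2.2
    rcases vd_cases i l h with ⟨rfl, rfl⟩ | rfl | rfl | rfl
    · rfl
    all_goals
      simp only [dt, nx]
      cases hs : (dt l).sA <;> simp [hs] at ih ⊢ <;> omega

def VV (σ c : ℤ) (u : ℤ × ℤ) (s : ℤ) : ℤ :=
  if s = 0 then u.1 else if s = 1 then u.2
  else if s = 2 then max (u.2 + σ - c) (u.1 - 2 * σ - 2 * c)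
  else max (u.1 - σ - c) (u.2 + 2 * σ - 2 * c)

def UU (σ c : ℤ) : List ℤ → ℤ × ℤ
  | [] => (0, σ - c)
  | i :: l => (max (VV σ c (UU σ c l) ((i + 1) % 4) - σ * (1 + i) - c)
        (VV σ c (UU σ c l) i + σ * (4 - i) - 2 * c),
      max (VV σ c (UU σ c l) i + σ * (5 - i) - c)
        (VV σ c (UU σ c l) ((i + 1) % 4) - σ * i - 2 * c))

theorem UU_inv (σ c : ℤ) (hσ : σ = 1 ∨ σ = -1) (hc : 2 ≤ c) (l : List ℤ) :
    (UU σ c l).2 - σ - c ≤ (UU σ c l).1 ∧ (UU σ c l).1 + σ - c ≤ (UU σ c l).2 := by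
  cases l with
  | nil => simp only [UU]; omega
  | cons i l =>
    simp only [UU]
    generalize VV σ c (UU σ c l) ((i + 1) % 4) = a
    generalize VV σ c (UU σ c l) i = b
    rcases hσ with rfl | rfl <;> omega

theorem VV_adj (σ c : ℤ) (hσ : σ = 1 ∨ σ = -1) (hc : 2 ≤ c) (l : List ℤ) (e : ℤ) :
    VV σ c (UU σ c l) (e % 4) + σ - c ≤ VV σ c (UU σ c l) ((e + 1) % 4) ∧
    VV σ c (UU σ c l) ((e + 1) % 4) - σ - c ≤ VV σ c (UU σ c l) (e % 4) := by
  have h := UU_inv σ c hσ hc l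
  have : (e % 4 = 0 ∧ (e + 1) % 4 = 1) ∨ (e % 4 = 1 ∧ (e + 1) % 4 = 2) ∨
      (e % 4 = 2 ∧ (e + 1) % 4 = 3) ∨ (e % 4 = 3 ∧ (e + 1) % 4 = 0) := by omega
  rcases this with ⟨a, b⟩ | ⟨a, b⟩ | ⟨a, b⟩ | ⟨a, b⟩ <;> rw [a, b] <;> simp only [VV] <;>
    norm_num <;> rcases hσ with rfl | rfl <;> omega

theorem bell (σ c : ℤ) (hσ : σ = 1 ∨ σ = -1) (hc : 2 ≤ c) (p : List ℤ × ℤ) (hp : Vd p.1)
    (x : Fin 2 × Bool) : VV σ c (UU σ c p.1) (p.2 % 4) + σ * ((act x p).2 - p.2) - c ≤
      VV σ c (UU σ c (act x p).1) ((act x p).2 % 4) := by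
  obtain ⟨l, e⟩ := p
  obtain ⟨i, b⟩ := x
  have A := VV_adj σ c hσ hc
  fin_cases i <;> cases b
  · have := (A l (e - 1)).2
    simp only [sub_add_cancel] at this
    simp only [act]
    rcases hσ with rfl | rfl <;> simp <;> omega
  · have := (A l e).1
    simp only [act]
    rcases hσ with rfl | rfl <;> simp <;> omega
  · simp only [act]
    rcases fb_cases l e with h1 | ⟨h1, i, l, rfl⟩
    · have e1 : (e - e % 4 + 5) % 4 = 1 := by omega
      simp only [fb_push l e h1]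
      norm_num
      rw [e1]
      simp only [VV, UU]
      rcases hσ with rfl | rfl <;> norm_num <;> omega
    · obtain ⟨a, b, _⟩ := hp
      have e1 : (i + e - 4 + 5) % 4 = (i + 1) % 4 := by omega
      have e2 : i % 4 = i := by omega
      have := A l i
      rw [e2] at this
      simp only [fb_pop i l e h1]
      norm_num
      rw [e1, h1]
      simp only [UU]
      generalize VV σ c (UU σ c l) ((i + 1) % 4) = a at *
      generalize VV σ c (UU σ c l) i = b at *
      simp only [VV]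
      rcases hσ with rfl | rfl <;> norm_num <;> omega
  · simp only [act]
    rcases fb_cases l (e - 1) with h1 | ⟨h1, i, l, rfl⟩
    · have e1 : (e - 1 - (e - 1) % 4) % 4 = 0 := by omega
      have e2 : ((e - 1) % 4 + 1) % 4 = e % 4 := by omega
      simp only [fb_push l _ h1]
      simp only [Fin.mk_one, Fin.isValue, one_ne_zero, if_false, if_true]
      rw [e1]
      simp only [UU, e2]
      generalize VV σ c (UU σ c l) (e % 4) = a
      generalize VV σ c (UU σ c l) ((e - 1) % 4) = b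
      simp only [VV]
      rcases hσ with rfl | rfl <;> norm_num <;> omega
    · obtain ⟨a, b, _⟩ := hp
      have e1 : (i + (e - 1) - 4) % 4 = i := by omega
      have e2 : i % 4 = i := by omega
      have e3 : e % 4 = 1 := by omega
      have := A l i
      rw [e2] at this
      simp only [fb_pop i l _ h1]
      simp only [Fin.mk_one, Fin.isValue, one_ne_zero, if_false, if_true]
      rw [e1, e3]
      simp only [UU]
      generalize VV σ c (UU σ c l) ((i + 1) % 4) = a at *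
      generalize VV σ c (UU σ c l) i = b at *
      simp only [VV]
      rcases hσ with rfl | rfl <;> norm_num <;> omega

theorem pot (σ c : ℤ) (hσ : σ = 1 ∨ σ = -1) (hc : 2 ≤ c) (n : ℕ) (p : List ℤ × ℤ)
    (h : Reach n p) : σ * p.2 - c * n ≤ VV σ c (UU σ c p.1) (p.2 % 4) := by
  refine reach_ind (fun n p => σ * p.2 - c * n ≤ VV σ c (UU σ c p.1) (p.2 % 4)) ?_ ?_ ?_ n p h
  · simp [VV, UU]
  · intro n p h
    push_cast
    linarith
  · intro n p x hp h
    have := bell σ c hσ hc p hp x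
    push_cast
    linarith

def Bd (K : ℕ) : List ℤ → Prop
  | [] => True
  | i :: l => (dt (i :: l)).g ≤ K ∧ Bd K l

theorem Bd.g_le {K : ℕ} {l : List ℤ} (h : Bd K l) : (dt l).g ≤ K := by
  cases l with
  | nil => exact Nat.zero_le _
  | cons i l => exact h.1

def bnd (σ : ℤ) (d : Dt) (s : ℤ) : ℤ := if σ = 1 then vN d s + 4 * vq d s else -vN d s

theorem cmp (σ c : ℤ) (hσ : σ = 1 ∨ σ = -1) (K : ℕ) (hc : 2 * (K : ℤ) + 2 ≤ c) (l : List ℤ)
    (hl : Vd l) (hb : Bd K l) : ∀ s, 0 ≤ s → s ≤ 3 →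
      VV σ c (UU σ c l) s ≤ bnd σ (dt l) s - c * vd (dt l) s := by
  have ext : ∀ (u : ℤ × ℤ) (d : Dt), d.g ≤ K → u.1 ≤ bnd σ d 0 - c * vd d 0 →
      u.2 ≤ bnd σ d 1 - c * vd d 1 → ∀ s, 0 ≤ s → s ≤ 3 → VV σ c u s ≤ bnd σ d s - c * vd d s := by
    intro u d hg h0 h1 s a b
    obtain ⟨sA, D, lo, p, g⟩ := d
    have : s = 0 ∨ s = 1 ∨ s = 2 ∨ s = 3 := by omega
    rcases this with rfl | rfl | rfl | rfl <;> rcases hσ with rfl | rfl <;> cases sA <;>
      simp [VV, bnd, vd, vN, vq, mul_add] at h0 h1 hg ⊢ <;> generalize c * D = t at * <;> omega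
  induction l with
  | nil =>
    refine ext _ _ (Nat.zero_le _) ?_ ?_ <;> rcases hσ with rfl | rfl <;>
      simp [UU, bnd, vd, vN, vq, dt]
  | cons i l ih =>
    have ih := ih hl.2.2.2 hb.2
    have h1 := ih i hl.1 hl.2.1
    have h2 := ih ((i + 1) % 4) (by omega) (by omega)
    have hg := hb.1
    have hg' := hb.2.g_le
    have h0 : i = 0 → dt l = ⟨true, 0, 0, 0, 0⟩ := fun h => by rw [hl.2.2.1 h]; rfl
    have hi : i = 0 ∨ i = 1 ∨ i = 2 ∨ i = 3 := by have := hl.1; have := hl.2.1; omega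
    refine ext _ _ hg ?_ ?_
    all_goals
      simp only [UU, dt] at hg ⊢
      generalize VV σ c (UU σ c l) ((i + 1) % 4) = a at *
      generalize VV σ c (UU σ c l) i = b at *
      generalize dt l = d at *
      obtain ⟨sA, D, lo, p, g⟩ := d
      rcases hi with rfl | rfl | rfl | rfl <;> rcases hσ with rfl | rfl <;> cases sA <;>
        simp [bnd, vd, vN, vq, nx, mul_add] at h0 h1 h2 hg hg' ⊢ <;>
        generalize c * D = t at * <;> omega

theorem upper (K : ℕ) (c : ℤ) (hc : 2 * (K : ℤ) + 2 ≤ c) (n : ℕ) (l : List ℤ) (e : ℤ) (hl : Vd l)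
    (hb : Bd K l) (h : Reach n (l, e)) :
    e ≤ vN (dt l) (e % 4) + 4 * vq (dt l) (e % 4) + c * (n - vd (dt l) (e % 4)) ∧
    vN (dt l) (e % 4) - c * (n - vd (dt l) (e % 4)) ≤ e := by
  have h1 := (pot 1 c (Or.inl rfl) (by omega) n _ h).trans
    (cmp 1 c (Or.inl rfl) K hc l hl hb (e % 4) (by omega) (by omega))
  have h2 := (pot (-1) c (Or.inr rfl) (by omega) n _ h).trans
    (cmp (-1) c (Or.inr rfl) K hc l hl hb (e % 4) (by omega) (by omega))
  simp only [bnd, if_true, show (-1 : ℤ) ≠ 1 by norm_num, if_false] at h1 h2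
  constructor <;> linarith

theorem Bd.mono {K K' : ℕ} (h : K ≤ K') : ∀ {l : List ℤ}, Bd K l → Bd K' l
  | [], _ => trivial
  | _ :: _, hb => ⟨hb.1.trans h, Bd.mono h hb.2⟩

theorem ex_Bd (l : List ℤ) : ∃ K, Bd K l := by
  induction l with
  | nil => exact ⟨0, trivial⟩
  | cons i l ih =>
    obtain ⟨K, hK⟩ := ih
    exact ⟨max K (dt (i :: l)).g, le_max_right _ _, hK.mono (le_max_left _ _)⟩

theorem vd_le (n : ℕ) (l : List ℤ) (e : ℤ) (hl : Vd l) (h : Reach n (l, e)) :
    vd (dt l) (e % 4) ≤ n := by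
  obtain ⟨K, hK⟩ := ex_Bd l
  have := upper K (2 * K + 2 + 2 * vq (dt l) (e % 4)) (by omega) n l e hl hK h
  by_contra hn
  have h1 : (n : ℤ) - vd (dt l) (e % 4) ≤ -1 := by omega
  have h2 := mul_le_mul_of_nonneg_left h1
    (show (0 : ℤ) ≤ 2 * K + 2 + 2 * vq (dt l) (e % 4) by omega)
  omega

theorem Reach.x {n : ℕ} {l : List ℤ} {e : ℤ} (h : Reach n (l, e - 1)) : Reach (n + 1) (l, e) := by
  simpa [act] using h.step (0, true)

theorem Reach.x' {n : ℕ} {l : List ℤ} {e : ℤ} (h : Reach n (l, e + 1)) : Reach (n + 1) (l, e) := by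
  simpa [act] using h.step (0, false)

theorem Reach.y {n : ℕ} {l : List ℤ} {e i : ℤ} (hv : Vd (i :: l)) (he : e % 4 = 0)
    (h : Reach n (l, e + 1 + i)) : Reach (n + 1) (i :: l, e) := by
  obtain ⟨a, b, c, _⟩ := hv
  have e1 : (e + 1 + i - 1) % 4 = i := by omega
  have := h.step (1, true)
  simp only [act, Fin.isValue, one_ne_zero, if_false, if_true] at this
  rw [fb_push _ _ (by rw [e1]; exact c), e1] at this
  rwa [show e + 1 + i - 1 - i = e by omega] at this

theorem Reach.y' {n : ℕ} {l : List ℤ} {e i : ℤ} (hv : Vd (i :: l)) (he : e % 4 = 1)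
    (h : Reach n (l, e + i - 5)) : Reach (n + 1) (i :: l, e) := by
  obtain ⟨a, b, c, _⟩ := hv
  have e1 : (e + i - 5) % 4 = i := by omega
  have := h.step (1, false)
  simp only [act, Fin.isValue, one_ne_zero, if_false, Bool.false_eq_true] at this
  rw [fb_push _ _ (by rw [e1]; exact c), e1] at this
  rwa [show e + i - 5 - i + 5 = e by omega] at this

def AtS (l : List ℤ) (a b t : ℕ) (s : ℤ) : Prop := ∀ e : ℤ, e % 4 = s →
  vN (dt l) s - 4 * a ≤ e → e ≤ vN (dt l) s + 4 * vq (dt l) s + 4 * b → Reach (vd (dt l) s + t) (l, e)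

def At (l : List ℤ) (a b t : ℕ) : Prop := ∀ s, 0 ≤ s → s ≤ 3 → AtS l a b t s

theorem at_pair (l : List ℤ) (hl : Vd l) (a b t : ℕ) (h0 : AtS l a b t 0) (h1 : AtS l a b t 1) :
    At l a b t := by
  have hm := lo_mod l hl
  intro s s0 s3
  have : s = 0 ∨ s = 1 ∨ s = 2 ∨ s = 3 := by omega
  simp only [AtS] at h0 h1 ⊢
  generalize dt l = d at *
  obtain ⟨sA, D, lo, p, g⟩ := d
  rcases this with rfl | rfl | rfl | rfl
  · exact h0
  · exact h1
  · intro e he
    cases sA <;> simp [vd, vN, vq] at h0 h1 hm ⊢ <;> intro u v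
    · exact (h1 (e - 1) (by omega) (by omega) (by omega)).x.mono (by omega)
    · by_cases h : lo + 2 - 4 * a ≤ e
      · exact (h1 (e - 1) (by omega) (by omega) (by omega)).x.mono (by omega)
      · exact (h0 (e + 1 + 1) (by omega) (by omega) (by omega)).x'.x'.mono (by omega)
  · intro e he
    cases sA <;> simp [vd, vN, vq] at h0 h1 hm ⊢ <;> intro u v
    · by_cases h : lo + 2 - 4 * a ≤ e
      · exact (h1 (e - 1 - 1) (by omega) (by omega) (by omega)).x.x.mono (by omega)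
      · exact (h0 (e + 1) (by omega) (by omega) (by omega)).x'.mono (by omega)
    · exact (h0 (e + 1) (by omega) (by omega) (by omega)).x'.mono (by omega)

theorem at_push (i : ℤ) (l : List ℤ) (hl : Vd (i :: l)) (a b t : ℕ) (h : At l a b t) :
    At (i :: l) a b t := by
  have hm := lo_mod l hl.2.2.2
  have i0 := hl.1
  have i3 := hl.2.1
  have H1 : ∀ e : ℤ, e % 4 = 0 → vN (dt l) ((i + 1) % 4) - 4 * a ≤ e + 1 + i →
      e + 1 + i ≤ vN (dt l) ((i + 1) % 4) + 4 * vq (dt l) ((i + 1) % 4) + 4 * b →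
      Reach (vd (dt l) ((i + 1) % 4) + t + 1) (i :: l, e) := fun e he u v =>
    Reach.y hl he (h _ (by omega) (by omega) _ (by omega) u v)
  have H2 : ∀ e : ℤ, e % 4 = 1 → vN (dt l) i - 4 * a ≤ e + i - 5 →
      e + i - 5 ≤ vN (dt l) i + 4 * vq (dt l) i + 4 * b →
      Reach (vd (dt l) i + t + 1) (i :: l, e) := fun e he u v =>
    Reach.y' hl he (h _ i0 i3 _ (by omega) u v)
  have h0 : i = 0 → dt l = ⟨true, 0, 0, 0, 0⟩ := fun h => by rw [hl.2.2.1 h]; rfl
  have hi : i = 0 ∨ i = 1 ∨ i = 2 ∨ i = 3 := by omega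
  refine at_pair _ hl a b t ?_ ?_
  · intro e he u v
    by_cases hr : vN (dt l) ((i + 1) % 4) - 4 * a ≤ e + 1 + i ∧
        e + 1 + i ≤ vN (dt l) ((i + 1) % 4) + 4 * vq (dt l) ((i + 1) % 4) + 4 * b
    · refine (H1 e he hr.1 hr.2).mono ?_
      simp only [dt]
      generalize dt l = d at *
      obtain ⟨sA, D, lo, p, g⟩ := d
      rcases hi with rfl | rfl | rfl | rfl <;> cases sA <;> simp [vd, nx] at h0 ⊢ <;> omega
    · refine (H2 (e + 1) (by omega) ?_ ?_).x'.mono ?_
      all_goals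
        simp only [dt] at u v ⊢
        generalize dt l = d at *
        obtain ⟨sA, D, lo, p, g⟩ := d
        rcases hi with rfl | rfl | rfl | rfl <;> cases sA <;>
          simp [vd, vN, vq, nx] at h0 hr u v hm ⊢ <;> omega
  · intro e he u v
    by_cases hr : vN (dt l) i - 4 * a ≤ e + i - 5 ∧ e + i - 5 ≤ vN (dt l) i + 4 * vq (dt l) i + 4 * b
    · refine (H2 e he hr.1 hr.2).mono ?_
      simp only [dt]
      generalize dt l = d at *
      obtain ⟨sA, D, lo, p, g⟩ := d
      rcases hi with rfl | rfl | rfl | rfl <;> cases sA <;> simp [vd, nx] at h0 ⊢ <;> omega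
    · refine (H1 (e - 1) (by omega) ?_ ?_).x.mono ?_
      all_goals
        simp only [dt] at u v ⊢
        generalize dt l = d at *
        obtain ⟨sA, D, lo, p, g⟩ := d
        rcases hi with rfl | rfl | rfl | rfl <;> cases sA <;>
          simp [vd, vN, vq, nx] at h0 hr u v hm ⊢ <;> omega

theorem at_all (l : List ℤ) (hl : Vd l) : At l 0 0 0 := by
  induction l with
  | nil =>
    refine at_pair _ hl 0 0 0 ?_ ?_
    · intro e _ u v
      simp [dt, vN, vq, vd] at u v ⊢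
      rw [le_antisymm v u]; exact reach0
    · intro e _ u v
      simp [dt, vN, vq, vd] at u v ⊢
      rw [le_antisymm v u]; exact Reach.x (e := 1) reach0
  | cons i l ih => exact at_push i l hl 0 0 0 (ih hl.2.2.2)

def iI (l : List ℤ) : ℤ := if (dt l).sA then 3 else 1
def iO (l : List ℤ) : ℤ := if (dt l).sA then 1 else 3

theorem at_boost (l : List ℤ) (hl : Vd l) (m : ℕ) (hm : m ≤ (dt l).g) :
    At (iI l :: l) m 0 2 ∨ At (iI l :: l) 0 m 2 := by
  have h := at_all l hl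
  have h0 := h 0 (by omega) (by omega)
  have h1 := h 1 (by omega) (by omega)
  have hv : Vd (iI l :: l) := by
    refine ⟨?_, ?_, ?_, hl⟩ <;> simp only [iI] <;> split_ifs <;> simp
  have hmod := lo_mod l hl
  cases hs : (dt l).sA
  · have e1 : iI l = 1 := by simp [iI, hs]
    rw [e1] at hv ⊢
    have N : ∀ e : ℤ, e % 4 = 1 → (dt l).lo - 4 * (dt l).g ≤ e → e ≤ (dt l).lo + 4 * (dt l).p →
        Reach ((dt l).D + 2) (l, e) := by
      intro e he u v
      refine (h0 (e - 1) (by omega) ?_ ?_).x.mono ?_ <;> simp [vN, vq, vd, hs] <;> omega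
    left
    refine at_pair _ hv _ _ _ ?_ ?_
    · intro e he u v
      simp [dt, nx, vN, vq, vd, hs] at u v hmod ⊢
      by_cases hr : e ≤ (dt l).lo + 4 * (dt l).p - 1
      · exact (Reach.y hv he (N (e + 1 + 1 - 1) (by omega) (by omega) (by omega)).x).mono (by omega)
      · exact (Reach.y' hv (by omega) (N (e + 1 + 1 - 5) (by omega) (by omega)
          (by omega))).x'.mono (by omega)
    · intro e he u v
      simp [dt, nx, vN, vq, vd, hs] at u v hmod ⊢
      exact (Reach.y' hv he (N _ (by omega) (by omega) (by omega))).mono (by omega)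
  · have e1 : iI l = 3 := by simp [iI, hs]
    rw [e1] at hv ⊢
    have N : ∀ e : ℤ, e % 4 = 0 → (dt l).lo ≤ e → e ≤ (dt l).lo + 4 * (dt l).p + 4 * (dt l).g →
        Reach ((dt l).D + 2) (l, e) := by
      intro e he u v
      refine (h1 (e + 1) (by omega) ?_ ?_).x'.mono ?_ <;> simp [vN, vq, vd, hs] <;> omega
    right
    refine at_pair _ hv _ _ _ ?_ ?_
    · intro e he u v
      simp [dt, nx, vN, vq, vd, hs] at u v hmod ⊢
      exact (Reach.y hv he (N _ (by omega) (by omega) (by omega))).mono (by omega)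
    · intro e he u v
      simp [dt, nx, vN, vq, vd, hs] at u v hmod ⊢
      by_cases hr : (dt l).lo + 1 ≤ e
      · exact (Reach.y' hv he (N (e + 3 - 5 + 1) (by omega) (by omega) (by omega)).x').mono
          (by omega)
      · exact (Reach.y hv (by omega) (N (e - 1 + 1 + 3) (by omega) (by omega)
          (by omega))).x.mono (by omega)

def MM (m : ℕ) : List ℤ → Prop
  | [] => False
  | i :: l => MM m l ∨ (i = iI l ∧ m ≤ (dt l).g)

theorem at_MM (m : ℕ) (l : List ℤ) (hl : Vd l) (h : MM m l) : At l m 0 2 ∨ At l 0 m 2 := by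
  induction l with
  | nil => exact h.elim
  | cons i l ih =>
    rcases h with h | ⟨rfl, h⟩
    · exact (ih hl.2.2.2 h).imp (at_push i l hl _ _ _) (at_push i l hl _ _ _)
    · exact at_boost l hl.2.2.2 m h

end Pool.Agent.H.MP_620157_al
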