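import Pool.Agent.H.MP_620157_al.A
import Pool.Agent.H.MP_620157_al.C

set_option autoImplicit false

namespace Pool.Agent.H.MP_620157_al

open scoped PowerSeries Polynomial

theorem dtI (l : List ℤ) : (dt (iI l :: l)).D = (dt l).D + 1 ∧ (dt (iI l :: l)).p = (dt l).p ∧
    (dt (iI l :: l)).g = 1 := by
  cases hs : (dt l).sA <;> simp [dt, iI, nx, hs]

theorem dtS (l : List ℤ) : (dt (2 :: l)).D = (dt l).D + 2 ∧ (dt (2 :: l)).p = (dt l).p ∧
    (dt (2 :: l)).g = (dt l).g + 2 := by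
  simp only [dt, nx]; cases (dt l).sA <;> simp

theorem dtO (l : List ℤ) : (dt (iO l :: l)).D = (dt l).D + 2 ∧
    (dt (iO l :: l)).p = (dt l).p + (dt l).g ∧ (dt (iO l :: l)).g = 2 := by
  cases hs : (dt l).sA <;> simp [dt, iO, nx, hs]

theorem iI_ne (l : List ℤ) : iI l ≠ 2 ∧ iI l ≠ iO l ∧ iO l ≠ 2 := by
  simp only [iI, iO]; cases (dt l).sA <;> simp

theorem vd_cons (i : ℤ) (l : List ℤ) :
    Vd (i :: l) ↔ Vd l ∧ (i = iI l ∨ i = 2 ∨ i = iO l ∨ (i = 0 ∧ l = [])) := by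
  constructor
  · intro h
    refine ⟨h.2.2.2, ?_⟩
    have := vd_cases i l h
    simp only [iI, iO]
    cases (dt l).sA <;> simp <;> tauto
  · rintro ⟨h, h1⟩
    refine ⟨?_, ?_, ?_, h⟩ <;> simp only [iI, iO] at h1 <;> cases hs : (dt l).sA <;>
      simp [hs] at h1 <;> rcases h1 with h1 | h1 | h1 | h1 <;> simp [h1]

def Ch : ℕ → Finset (List ℤ)
  | 0 => {[]}
  | 1 => {[3], [0]}
  | n + 2 => (Ch (n + 1)).image (fun l => iI l :: l) ∪
      ((Ch n).image (fun l => 2 :: l) ∪ (Ch n).image (fun l => iO l :: l))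

theorem D_zero (l : List ℤ) (hl : Vd l) (h : (dt l).D = 0) : l = [] := by
  cases l with
  | nil => rfl
  | cons i l =>
    obtain ⟨_, rfl | rfl | rfl | ⟨rfl, rfl⟩⟩ := (vd_cons i l).mp hl
    · rw [(dtI l).1] at h; omega
    · rw [(dtS l).1] at h; omega
    · rw [(dtO l).1] at h; omega
    · simp [dt, nx] at h

theorem mem_Ch (n : ℕ) : ∀ l, l ∈ Ch n ↔ Vd l ∧ (dt l).D = n := by
  induction n using Nat.strong_induction_on with
  | _ n ih =>
  intro l
  match n, ih with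
  | 0, _ =>
    simp only [Ch, Finset.mem_singleton]
    exact ⟨by rintro rfl; exact ⟨trivial, rfl⟩, fun h => D_zero l h.1 h.2⟩
  | 1, _ =>
    simp only [Ch, Finset.mem_insert, Finset.mem_singleton]
    constructor
    · rintro (rfl | rfl) <;> simp [Vd, dt, nx]
    · rintro ⟨hl, h⟩
      cases l with
      | nil => simp [dt] at h
      | cons i l =>
        obtain ⟨hv, rfl | rfl | rfl | ⟨rfl, rfl⟩⟩ := (vd_cons i l).mp hl
        · rw [(dtI l).1] at h
          rw [D_zero l hv (by omega)]; left; rfl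
        · rw [(dtS l).1] at h; omega
        · rw [(dtO l).1] at h; omega
        · right; rfl
  | n + 2, ih =>
    simp only [Ch, Finset.mem_union, Finset.mem_image, ih (n + 1) (by omega), ih n (by omega)]
    constructor
    · rintro (⟨l, ⟨a, b⟩, rfl⟩ | ⟨l, ⟨a, b⟩, rfl⟩ | ⟨l, ⟨a, b⟩, rfl⟩)
      · exact ⟨(vd_cons _ _).mpr ⟨a, by simp⟩, by rw [(dtI l).1, b]⟩
      · exact ⟨(vd_cons _ _).mpr ⟨a, by simp⟩, by rw [(dtS l).1, b]⟩
      · exact ⟨(vd_cons _ _).mpr ⟨a, by simp⟩, by rw [(dtO l).1, b]⟩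
    · rintro ⟨hl, h⟩
      cases l with
      | nil => simp [dt] at h
      | cons i l =>
        obtain ⟨hv, rfl | rfl | rfl | ⟨rfl, rfl⟩⟩ := (vd_cons i l).mp hl
        · rw [(dtI l).1] at h; exact Or.inl ⟨l, ⟨hv, by omega⟩, rfl⟩
        · rw [(dtS l).1] at h; exact Or.inr (Or.inl ⟨l, ⟨hv, by omega⟩, rfl⟩)
        · rw [(dtO l).1] at h; exact Or.inr (Or.inr ⟨l, ⟨hv, by omega⟩, rfl⟩)
        · simp [dt, nx] at h

theorem sum_Ch (f : List ℤ → ℚ) (n : ℕ) : ∑ l ∈ Ch (n + 2), f l =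
    ∑ l ∈ Ch (n + 1), f (iI l :: l) + (∑ l ∈ Ch n, f (2 :: l) + ∑ l ∈ Ch n, f (iO l :: l)) := by
  rw [Ch, Finset.sum_union, Finset.sum_union, Finset.sum_image, Finset.sum_image, Finset.sum_image]
  · intro a _ b _ h; exact (List.cons.inj h).2
  · intro a _ b _ h; exact (List.cons.inj h).2
  · intro a _ b _ h; exact (List.cons.inj h).2
  · rw [Finset.disjoint_left]
    intro x hx hx'
    obtain ⟨v, _, rfl⟩ := Finset.mem_image.mp hx
    obtain ⟨v', _, h⟩ := Finset.mem_image.mp hx'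
    exact (iI_ne v').2.2 (List.cons.inj h).1
  · rw [Finset.disjoint_left]
    intro x hx hx'
    obtain ⟨v, _, rfl⟩ := Finset.mem_image.mp hx
    rcases Finset.mem_union.mp hx' with hx' | hx' <;> obtain ⟨v', _, h⟩ := Finset.mem_image.mp hx'
    · exact (iI_ne v).1 (List.cons.inj h).1.symm
    · obtain ⟨h1, rfl⟩ := List.cons.inj h
      exact (iI_ne v').2.1 h1.symm

theorem sum_one (n : ℕ) : ∑ _l ∈ Ch n, (1 : ℚ) = 2 ^ n := by
  induction n using Nat.twoStepInduction with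
  | zero => simp [Ch]
  | one => simp [Ch]
  | more n h0 h1 => rw [sum_Ch, h0, h1]; ring

theorem sum_c (c : ℚ) (n : ℕ) : ∑ _l ∈ Ch n, c = c * 2 ^ n := by
  rw [← sum_one, Finset.mul_sum]; simp

theorem alg_pow : IsAlgebraic ℚ[X] (PowerSeries.mk fun n => (2 : ℚ) ^ n) := by
  refine alg_rec _ (fun _ => 0) 0 4 ?_ (fun n => by ring)
  have : (PowerSeries.mk fun _ => (0 : ℚ)) = 0 := by ext; simp
  rw [this]; exact isAlgebraic_zero

theorem alg_lin (f g : ℕ → ℚ) (a b : ℚ) (hf : IsAlgebraic ℚ[X] (PowerSeries.mk f))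
    (hg : IsAlgebraic ℚ[X] (PowerSeries.mk g)) :
    IsAlgebraic ℚ[X] (PowerSeries.mk fun n => a * f n + b * g n) := by
  have : (PowerSeries.mk fun n => a * f n + b * g n) =
      (Polynomial.C a : ℚ[X]) • PowerSeries.mk f + (Polynomial.C b : ℚ[X]) • PowerSeries.mk g := by
    ext n; simp [Algebra.smul_def, alg_eq]
  rw [this]; exact (hf.smul _).add (hg.smul _)

theorem alg_sh (f : ℕ → ℚ) (hf : IsAlgebraic ℚ[X] (PowerSeries.mk f)) (k : ℕ) :
    IsAlgebraic ℚ[X] (PowerSeries.mk fun n => f (n + k)) := by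
  simpa using alg_shift _ hf k

noncomputable def sg (n : ℕ) : ℚ := ∑ l ∈ Ch n, ((dt l).g : ℚ)
noncomputable def sp (n : ℕ) : ℚ := ∑ l ∈ Ch n, ((dt l).p : ℚ)

theorem alg_sg : IsAlgebraic ℚ[X] (PowerSeries.mk sg) := by
  refine alg_rec _ _ 0 1 (alg_lin _ _ 6 0 alg_pow alg_pow) (fun n => ?_)
  simp only [sg, sum_Ch, (dtI _).2.2, (dtS _).2.2, (dtO _).2.2]
  push_cast
  simp only [Finset.sum_add_distrib, sum_c]
  ring

theorem alg_sp : IsAlgebraic ℚ[X] (PowerSeries.mk sp) := by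
  refine alg_rec _ _ 1 2 alg_sg (fun n => ?_)
  simp only [sp, sg, sum_Ch, (dtI _).2.1, (dtS _).2.1, (dtO _).2.1]
  push_cast
  simp only [Finset.sum_add_distrib]
  ring

def Ball (k : ℕ) : Finset (List ℤ) := (Finset.range (k + 1)).biUnion Ch

theorem mem_Ball (k : ℕ) (l : List ℤ) : l ∈ Ball k ↔ Vd l ∧ (dt l).D ≤ k := by
  simp only [Ball, Finset.mem_biUnion, Finset.mem_range, mem_Ch]
  exact ⟨fun ⟨m, a, b, c⟩ => ⟨b, by omega⟩, fun ⟨a, b⟩ => ⟨_, by omega, a, rfl⟩⟩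

theorem sum_Ball (f : List ℤ → ℚ) (k : ℕ) :
    ∑ l ∈ Ball k, f l = ∑ m ∈ Finset.range (k + 1), ∑ l ∈ Ch m, f l := by
  refine Finset.sum_biUnion fun a _ b _ hab => ?_
  rw [Function.onFun, Finset.disjoint_left]
  intro l h1 h2
  exact hab (((mem_Ch a l).mp h1).2.symm.trans ((mem_Ch b l).mp h2).2)

theorem vN_mod (l : List ℤ) (hl : Vd l) (s : ℤ) (h0 : 0 ≤ s) (h3 : s ≤ 3) : vN (dt l) s % 4 = s := by
  have := lo_mod l hl
  simp only [vN]
  cases hs : (dt l).sA <;> simp [hs] at this ⊢ <;> split_ifs <;> omega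

theorem D_le_vd (d : Dt) (s : ℤ) : d.D ≤ vd d s := by
  simp only [vd]; split_ifs <;> omega

def In (l : List ℤ) (e : ℤ) : Prop :=
  vN (dt l) (e % 4) ≤ e ∧ e ≤ vN (dt l) (e % 4) + 4 * vq (dt l) (e % 4)

theorem hall (p : List ℤ × ℤ) (hl : Vd p.1) : ∃ n, Reach n p := by
  obtain ⟨l, e⟩ := p
  have h0 : ∃ n, Reach n (l, vN (dt l) 0) :=
    ⟨_, at_all l hl 0 (by omega) (by omega) _ (vN_mod l hl 0 (by omega) (by omega)) (by omega)
      (by omega)⟩
  induction e using Int.inductionOn' (b := vN (dt l) 0) with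
  | zero => exact h0
  | succ k _ ih => obtain ⟨n, h⟩ := ih hl; exact ⟨n + 1, Reach.x (by simpa using h)⟩
  | pred k _ ih => obtain ⟨n, h⟩ := ih hl; exact ⟨n + 1, Reach.x' (by simpa using h)⟩

theorem reach_len' (l : List ℤ) (hl : Vd l) (e : ℤ) : Reach (len (l, e)) (l, e) :=
  let ⟨_, h⟩ := hall (l, e) hl; reach_len h

theorem len_in (l : List ℤ) (hl : Vd l) (e : ℤ) : In l e ↔ len (l, e) = vd (dt l) (e % 4) := by
  have h1 := reach_len' l hl e
  constructor
  · intro h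
    refine le_antisymm (len_le (at_all l hl (e % 4) (by omega) (by omega) e rfl ?_ ?_))
      (vd_le _ l e hl h1)
    · simpa using h.1
    · simpa using h.2
  · intro h
    obtain ⟨K, hK⟩ := ex_Bd l
    have := upper K _ le_rfl _ l e hl hK h1
    rw [h] at this
    simpa [In, and_comm] using this

def Fg (k : ℕ) (l : List ℤ) : Finset ℤ := ({0, 1, 2, 3} : Finset ℤ).biUnion fun s =>
  if vd (dt l) s = k then (Finset.range (vq (dt l) s + 1)).image fun j : ℕ => vN (dt l) s + 4 * j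
  else ∅

theorem mem_Fg (k : ℕ) (l : List ℤ) (hl : Vd l) (e : ℤ) :
    e ∈ Fg k l ↔ In l e ∧ vd (dt l) (e % 4) = k := by
  simp only [Fg, Finset.mem_biUnion, In]
  constructor
  · rintro ⟨s, hs, h⟩
    simp only [Finset.mem_insert, Finset.mem_singleton] at hs
    split_ifs at h with h1
    · obtain ⟨j, hj, rfl⟩ := Finset.mem_image.mp h
      have h2 := vN_mod l hl s (by omega) (by omega)
      have h3 : (vN (dt l) s + 4 * j) % 4 = s := by omega
      rw [Finset.mem_range] at hj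
      rw [h3]
      exact ⟨⟨by omega, by omega⟩, h1⟩
    · simp at h
  · rintro ⟨⟨a, b⟩, c⟩
    refine ⟨e % 4, by simp only [Finset.mem_insert, Finset.mem_singleton]; omega, ?_⟩
    rw [if_pos c, Finset.mem_image]
    have h2 := vN_mod l hl (e % 4) (by omega) (by omega)
    exact ⟨((e - vN (dt l) (e % 4)) / 4).toNat, by rw [Finset.mem_range]; omega, by omega⟩

theorem card_Fg (k : ℕ) (l : List ℤ) (hl : Vd l) : ((Fg k l).card : ℚ) =
    (if (dt l).D = k then ((dt l).p + 1 : ℚ) else 0) +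
    (if (dt l).D + 1 = k then (2 * (dt l).p + (dt l).g + 2 : ℚ) else 0) +
    (if (dt l).D + 2 = k then ((dt l).p + (dt l).g + 2 : ℚ) else 0) := by
  have h1 : ∀ s : ℤ, (if vd (dt l) s = k then
      (Finset.range (vq (dt l) s + 1)).image fun j : ℕ => vN (dt l) s + 4 * j else ∅).card =
      if vd (dt l) s = k then vq (dt l) s + 1 else 0 := by
    intro s
    split_ifs
    · rw [Finset.card_image_of_injective _ (fun a b h => by simpa using h), Finset.card_range]
    · rfl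
  rw [Fg, Finset.card_biUnion]
  · simp only [h1]
    rw [Finset.sum_insert (by simp), Finset.sum_insert (by simp), Finset.sum_insert (by simp),
      Finset.sum_singleton]
    cases hs : (dt l).sA <;> simp [vd, vq, hs] <;> split_ifs <;> first | omega | ring
  · intro a ha b hb hab
    simp only [Finset.coe_insert, Finset.coe_singleton, Set.mem_insert_iff,
      Set.mem_singleton_iff] at ha hb
    rw [Function.onFun, Finset.disjoint_left]
    intro e h1 h2
    split_ifs at h1 h2 <;> simp only [Finset.notMem_empty, Finset.mem_image] at h1 h2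
    obtain ⟨i, _, rfl⟩ := h1
    obtain ⟨j, _, h⟩ := h2
    have := vN_mod l hl a (by omega) (by omega)
    have := vN_mod l hl b (by omega) (by omega)
    omega

noncomputable def c0 (k : ℕ) : ℚ := ∑ l ∈ Ball k, ((Fg k l).card : ℚ)

theorem alg_c0 : IsAlgebraic ℚ[X] (PowerSeries.mk c0) := by
  have h1 := alg_lin _ _ 1 2 (alg_sh _ alg_sp 2) (alg_sh _ alg_sp 1)
  have h2 := alg_lin _ _ 1 1 (alg_sh _ alg_sg 1) alg_sg
  have h3 := alg_lin _ _ 1 10 alg_sp alg_pow
  refine alg_rec _ _ 0 0 (alg_lin _ _ 1 1 h1 (alg_lin _ _ 1 1 h2 h3)) (fun n => ?_)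
  rw [c0, sum_Ball, Finset.sum_range_succ, Finset.sum_range_succ, Finset.sum_range_succ,
    Finset.sum_eq_zero]
  · have e0 : ∑ l ∈ Ch n, ((Fg (n + 2) l).card : ℚ) = ∑ l ∈ Ch n, ((dt l).p + (dt l).g + 2 : ℚ) :=
      Finset.sum_congr rfl fun l hl => by
        rw [card_Fg _ _ ((mem_Ch _ _).mp hl).1, ((mem_Ch _ _).mp hl).2]; simp
    have e1 : ∑ l ∈ Ch (n + 1), ((Fg (n + 2) l).card : ℚ) =
        ∑ l ∈ Ch (n + 1), (2 * (dt l).p + (dt l).g + 2 : ℚ) :=
      Finset.sum_congr rfl fun l hl => by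
        rw [card_Fg _ _ ((mem_Ch _ _).mp hl).1, ((mem_Ch _ _).mp hl).2]; simp
    have e2 : ∑ l ∈ Ch (n + 2), ((Fg (n + 2) l).card : ℚ) =
        ∑ l ∈ Ch (n + 2), ((dt l).p + 1 : ℚ) :=
      Finset.sum_congr rfl fun l hl => by
        rw [card_Fg _ _ ((mem_Ch _ _).mp hl).1, ((mem_Ch _ _).mp hl).2]; simp
    rw [e0, e1, e2]
    simp only [Finset.sum_add_distrib, sum_c, ← Finset.mul_sum, sp, sg]
    ring
  · intro m hm
    rw [Finset.mem_range] at hm
    refine Finset.sum_eq_zero fun l hl => ?_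
    rw [card_Fg _ _ ((mem_Ch _ _).mp hl).1, ((mem_Ch _ _).mp hl).2, if_neg (by omega),
      if_neg (by omega), if_neg (by omega)]
    simp

noncomputable def Big (c k : ℕ) (l : List ℤ) : Finset ℤ := ({0, 1, 2, 3} : Finset ℤ).biUnion fun s =>
  Finset.Ico (vN (dt l) s - (c * (k - (dt l).D) : ℕ)) (vN (dt l) s) ∪
    Finset.Ioc (vN (dt l) s + 4 * vq (dt l) s)
      (vN (dt l) s + 4 * vq (dt l) s + (c * (k - (dt l).D) : ℕ))

theorem card_Big (c k : ℕ) (l : List ℤ) : (Big c k l).card ≤ 8 * (c * (k - (dt l).D)) := by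
  refine Finset.card_biUnion_le.trans ?_
  refine (Finset.sum_le_card_nsmul _ _ (2 * (c * (k - (dt l).D))) fun s _ => ?_).trans ?_
  · refine (Finset.card_union_le _ _).trans ?_
    rw [Int.card_Ico, Int.card_Ioc]
    omega
  · have : ({0, 1, 2, 3} : Finset ℤ).card = 4 := rfl
    rw [this, smul_eq_mul]; omega

theorem sub_Big (K k : ℕ) (l : List ℤ) (hl : Vd l) (hb : Bd K l) (e : ℤ) (h : len (l, e) = k)
    (hn : ¬ In l e) : e ∈ Big (2 * K + 2) k l := by
  have h1 := reach_len' l hl e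
  rw [h] at h1
  have h2 := upper K _ le_rfl _ l e hl hb h1
  have h3 := vd_le _ l e hl h1
  have h4 := D_le_vd (dt l) (e % 4)
  have h5 : (2 * (K : ℤ) + 2) * (k - vd (dt l) (e % 4)) ≤ (((2 * K + 2) * (k - (dt l).D) : ℕ) : ℤ) := by
    push_cast [Nat.cast_sub (h4.trans h3)]
    exact mul_le_mul_of_nonneg_left (by omega) (by omega)
  simp only [Big, Finset.mem_biUnion]
  refine ⟨e % 4, by simp only [Finset.mem_insert, Finset.mem_singleton]; omega, ?_⟩
  simp only [In] at hn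
  simp only [Finset.mem_union, Finset.mem_Ico, Finset.mem_Ioc]
  omega

open Classical in
noncomputable def Fn (k : ℕ) (l : List ℤ) : Finset ℤ :=
  (Big (2 * (ex_Bd l).choose + 2) k l).filter fun e => len (l, e) = k ∧ ¬ In l e

theorem mem_Fn (k : ℕ) (l : List ℤ) (hl : Vd l) (e : ℤ) : e ∈ Fn k l ↔ len (l, e) = k ∧ ¬ In l e := by
  simp only [Fn, Finset.mem_filter]
  exact ⟨fun h => h.2, fun h => ⟨sub_Big _ k l hl (ex_Bd l).choose_spec e h.1 h.2, h⟩⟩

noncomputable def tn (k : ℕ) : ℚ := ∑ l ∈ Ball k, ((Fn k l).card : ℚ)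

theorem sphere_eq (k : ℕ) :
    (Set.ncard {p : List ℤ × ℤ | Vd p.1 ∧ len p = k} : ℚ) = c0 k + tn k := by
  have e : {p : List ℤ × ℤ | Vd p.1 ∧ len p = k} =
      ((Ball k).biUnion fun l => (Fg k l ∪ Fn k l).image (Prod.mk l) : Finset _) := by
    ext ⟨l, e⟩
    simp only [Set.mem_setOf_eq, Finset.mem_coe, Finset.mem_biUnion, Finset.mem_image,
      Prod.mk.injEq, Finset.mem_union, mem_Ball]
    constructor
    · rintro ⟨hl, h⟩
      have h1 := reach_len' l hl e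
      rw [h] at h1
      refine ⟨l, ⟨hl, (D_le_vd _ _).trans (vd_le _ l e hl h1)⟩, e, ?_, rfl, rfl⟩
      rw [mem_Fg k l hl, mem_Fn k l hl]
      by_cases hi : In l e
      · exact Or.inl ⟨hi, ((len_in l hl e).mp hi).symm.trans h⟩
      · exact Or.inr ⟨h, hi⟩
    · rintro ⟨l, ⟨hl, _⟩, e, h, rfl, rfl⟩
      rw [mem_Fg k l hl, mem_Fn k l hl] at h
      rcases h with h | h
      · exact ⟨hl, ((len_in l hl e).mp h.1).trans h.2⟩
      · exact ⟨hl, h.1⟩
  rw [e, Set.ncard_coe_finset, Finset.card_biUnion, c0, tn, ← Finset.sum_add_distrib]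
  · push_cast
    refine Finset.sum_congr rfl fun l hl => ?_
    have hv := ((mem_Ball k l).mp hl).1
    rw [Finset.card_image_of_injective _ (Prod.mk_right_injective l), Finset.card_union_of_disjoint]
    · simp
    · rw [Finset.disjoint_left]
      intro e h1 h2
      exact ((mem_Fn k l hv e).mp h2).2 ((mem_Fg k l hv e).mp h1).1
  · intro a _ b _ hab
    rw [Function.onFun, Finset.disjoint_left]
    intro p h1 h2
    obtain ⟨_, _, rfl⟩ := Finset.mem_image.mp h1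
    obtain ⟨_, _, h⟩ := Finset.mem_image.mp h2
    exact hab (Prod.ext_iff.mp h).1.symm

end Pool.Agent.H.MP_620157_al
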