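import Pool.Agent.H.MP_620157_al.D

set_option autoImplicit false

namespace Pool.Agent.H.MP_620157_al

open scoped PowerSeries Polynomial

def cn (h : ℕ) : List ℤ → ℕ
  | [] => 0
  | i :: l => cn h l + if h < (dt (i :: l)).g then 1 else 0

theorem g_cons (i : ℤ) (l : List ℤ) : (dt (i :: l)).g ≤ (dt l).g + 2 := by
  simp only [dt, nx]; split_ifs <;> simp

theorem bd_cn (h : ℕ) (l : List ℤ) : Bd (h + 2 * cn h l) l := by
  induction l with
  | nil => trivial
  | cons i l ih =>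
    have h1 := g_cons i l
    have h2 := ih.g_le
    refine ⟨?_, ih.mono ?_⟩
    · simp only [cn]; split_ifs <;> omega
    · simp only [cn]; omega

noncomputable def bb' (h n : ℕ) : ℚ := ∑ l ∈ Ch n, if h < (dt l).g then 1 else 0

theorem bb_le (j : ℕ) : ∀ n, bb' (2 * j) n ≤ 2 ^ n / 4 ^ j := by
  induction j with
  | zero =>
    intro n
    rw [pow_zero, div_one, ← sum_one]
    exact Finset.sum_le_sum fun l _ => by split_ifs <;> norm_num
  | succ j ih =>
    intro n
    match n with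
    | 0 => simp [bb', Ch, dt]
    | 1 =>
      have : bb' (2 * (j + 1)) 1 = 0 := by
        simp [bb', Ch, dt, nx]
      rw [this]; positivity
    | n + 2 =>
      have : bb' (2 * (j + 1)) (n + 2) = bb' (2 * j) n := by
        simp only [bb', sum_Ch, (dtI _).2.2, (dtS _).2.2, (dtO _).2.2]
        rw [if_neg (by omega), if_neg (by omega)]
        simp only [Finset.sum_const_zero, zero_add, add_zero]
        exact Finset.sum_congr rfl fun l _ => by
          simp only [mul_add, mul_one, add_lt_add_iff_right]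
      rw [this]
      refine (ih n).trans (le_of_eq ?_)
      field_simp; ring

theorem cn_le (j n : ℕ) : ∑ l ∈ Ch n, (cn (2 * j) l : ℚ) ≤ n * 2 ^ n / 4 ^ j := by
  induction n using Nat.twoStepInduction with
  | zero => simp [Ch, cn]
  | one =>
    have : ∑ l ∈ Ch 1, (cn (2 * j) l : ℚ) = bb' (2 * j) 1 := by
      refine Finset.sum_congr rfl fun l hl => ?_
      simp only [Ch, Finset.mem_insert, Finset.mem_singleton] at hl
      rcases hl with rfl | rfl <;> simp [cn]
    rw [this]; simpa using bb_le j 1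
  | more n h0 h1 =>
    have : ∑ l ∈ Ch (n + 2), (cn (2 * j) l : ℚ) = ∑ l ∈ Ch (n + 1), (cn (2 * j) l : ℚ) +
        2 * ∑ l ∈ Ch n, (cn (2 * j) l : ℚ) + bb' (2 * j) (n + 2) := by
      simp only [bb', sum_Ch, cn]
      push_cast
      simp only [Finset.sum_add_distrib]
      ring
    rw [this]
    have h2 := bb_le j (n + 2)
    have h3 : (0 : ℚ) ≤ 2 ^ n / 4 ^ j := by positivity
    have e1 : ((n + 1 : ℕ) : ℚ) * 2 ^ (n + 1) / 4 ^ j = (2 * n + 2) * (2 ^ n / 4 ^ j) := by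
      push_cast; ring
    have e2 : (n : ℚ) * 2 ^ n / 4 ^ j = n * (2 ^ n / 4 ^ j) := by ring
    have e3 : (2 : ℚ) ^ (n + 2) / 4 ^ j = 4 * (2 ^ n / 4 ^ j) := by ring
    have e4 : ((n + 2 : ℕ) : ℚ) * 2 ^ (n + 2) / 4 ^ j = (4 * n + 8) * (2 ^ n / 4 ^ j) := by
      push_cast; ring
    rw [e1] at h1; rw [e2] at h0; rw [e3] at h2; rw [e4]
    nlinarith

theorem geo_sum (k : ℕ) :
    ∑ m ∈ Finset.range (k + 1), ((k : ℚ) - m) * 2 ^ m = 2 ^ (k + 1) - k - 2 := by
  have h : ∀ k : ℕ, ∑ m ∈ Finset.range k, (2 : ℚ) ^ m = 2 ^ k - 1 := by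
    intro k; rw [geom_sum_eq (by norm_num)]; norm_num
  induction k with
  | zero => simp
  | succ k ih =>
    rw [Finset.sum_range_succ]
    have : ∑ m ∈ Finset.range (k + 1), (((k + 1 : ℕ) : ℚ) - m) * 2 ^ m =
        ∑ m ∈ Finset.range (k + 1), ((k : ℚ) - m) * 2 ^ m + ∑ m ∈ Finset.range (k + 1), 2 ^ m := by
      rw [← Finset.sum_add_distrib]
      exact Finset.sum_congr rfl fun m _ => by push_cast; ring
    rw [this, ih, h]; push_cast; ring

theorem tn_le (j k : ℕ) : tn k ≤ 64 * 2 ^ k * (j + 1 + k / 4 ^ j) := by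
  have hX : (0 : ℚ) ≤ j + 1 + k / 4 ^ j := by positivity
  have h1 : tn k ≤ ∑ m ∈ Finset.range (k + 1),
      ((k : ℚ) - m) * 2 ^ m * (32 * (j + 1 + k / 4 ^ j)) := by
    rw [tn, sum_Ball]
    refine Finset.sum_le_sum fun m hm => ?_
    have hm' : m ≤ k := by rw [Finset.mem_range] at hm; omega
    have hmq : (0 : ℚ) ≤ (k : ℚ) - m := by rw [sub_nonneg]; exact_mod_cast hm'
    have h2 : ∑ l ∈ Ch m, ((Fn k l).card : ℚ) ≤
        ∑ l ∈ Ch m, 8 * ((k : ℚ) - m) * (4 * j + 2 + 4 * cn (2 * j) l) := by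
      refine Finset.sum_le_sum fun l hl => ?_
      obtain ⟨hv, hD⟩ := (mem_Ch m l).mp hl
      have h3 : (Fn k l).card ≤ _ := (Finset.card_le_card fun e he =>
        sub_Big _ k l hv (bd_cn (2 * j) l) e ((mem_Fn k l hv e).mp he).1
          ((mem_Fn k l hv e).mp he).2).trans (card_Big _ k l)
      rw [hD] at h3
      have h4 := (Nat.cast_le (α := ℚ)).mpr h3
      push_cast [Nat.cast_sub hm'] at h4
      refine h4.trans (le_of_eq ?_); ring
    refine h2.trans ?_
    rw [← Finset.mul_sum, Finset.sum_add_distrib, sum_c, ← Finset.mul_sum]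
    have h5 := cn_le j m
    have h6 : (m : ℚ) * 2 ^ m / 4 ^ j ≤ 2 ^ m * (k / 4 ^ j) := by
      rw [mul_comm (m : ℚ), mul_div_assoc]
      gcongr
    have h7 : (0 : ℚ) ≤ 2 ^ m := by positivity
    have h8 : (4 * (j : ℚ) + 2) * 2 ^ m + 4 * ∑ l ∈ Ch m, (cn (2 * j) l : ℚ) ≤
        2 ^ m * (4 * (j + 1 + k / 4 ^ j)) := by nlinarith
    calc _ ≤ 8 * ((k : ℚ) - m) * (2 ^ m * (4 * (j + 1 + k / 4 ^ j))) :=
          mul_le_mul_of_nonneg_left h8 (by positivity)
      _ = _ := by ring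
  rw [← Finset.sum_mul, geo_sum] at h1
  refine h1.trans ?_
  have : (2 : ℚ) ^ (k + 1) - k - 2 ≤ 2 * 2 ^ k := by
    rw [pow_succ]; have : (0 : ℚ) ≤ k := by positivity
    linarith
  calc _ ≤ 2 * 2 ^ k * (32 * (j + 1 + k / 4 ^ j) : ℚ) :=
        mul_le_mul_of_nonneg_right this (by positivity)
    _ = _ := by ring

open Classical in
noncomputable def ka (m c n : ℕ) : ℚ := ∑ l ∈ Ch n, if ¬ MM m l ∧ c ≤ (dt l).g then 1 else 0

theorem ka_nonneg (m c n : ℕ) : 0 ≤ ka m c n :=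
  Finset.sum_nonneg fun _ _ => by split_ifs <;> norm_num

theorem MM_S (m : ℕ) (l : List ℤ) : MM m (2 :: l) ↔ MM m l := by
  simp [MM, (iI_ne l).1.symm]

theorem MM_O (m : ℕ) (l : List ℤ) : MM m (iO l :: l) ↔ MM m l := by
  simp [MM, (iI_ne l).2.1.symm]

theorem ka_rec (m n : ℕ) : ka m 0 (n + 2) = ka m 0 (n + 1) - ka m m (n + 1) + 2 * ka m 0 n := by
  classical
  simp only [ka, sum_Ch, MM_S, MM_O, zero_le, and_true]
  rw [← Finset.sum_sub_distrib, two_mul]
  congr 1
  refine Finset.sum_congr rfl fun l _ => ?_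
  simp only [MM, true_and]
  by_cases h1 : MM m l <;> by_cases h2 : m ≤ (dt l).g <;> simp [h1, h2]

theorem ka_ge (m r : ℕ) : ∀ n c, c ≤ 2 * r → ka m 0 n ≤ ka m c (n + 2 * r) := by
  classical
  induction r with
  | zero => intro n c hc; obtain rfl : c = 0 := by omega
            exact le_rfl
  | succ r ih =>
    intro n c hc
    refine (ih n (c - 2) (by omega)).trans ?_
    rw [show n + 2 * (r + 1) = n + 2 * r + 2 by ring]
    conv_rhs => rw [ka, sum_Ch]
    have h1 : ka m (c - 2) (n + 2 * r) = ∑ l ∈ Ch (n + 2 * r),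
        (if ¬ MM m (2 :: l) ∧ c ≤ (dt (2 :: l)).g then (1 : ℚ) else 0) := by
      refine Finset.sum_congr rfl fun l _ => ?_
      simp only [MM_S, (dtS _).2.2, tsub_le_iff_right]
    rw [← h1]
    refine le_add_of_nonneg_of_le ?_ (le_add_of_nonneg_right ?_) <;>
      exact Finset.sum_nonneg fun _ _ => by split_ifs <;> norm_num

theorem ka_small (m : ℕ) : ∃ n0, ∀ n, n0 ≤ n → ka m 0 n ≤ 2 ^ n / 2 := by
  let Ψ : ℕ → ℚ := fun n => ka m 0 (n + 1) + ka m 0 n
  have h1 : ∀ n, Ψ (n + 1) = 2 * Ψ n - ka m m (n + 1) := by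
    intro n; simp only [Ψ, ka_rec]; ring
  have h2 : ∀ d n, Ψ (n + d) ≤ 2 ^ d * Ψ n := by
    intro d n
    induction d with
    | zero => simp
    | succ d ih =>
      rw [← add_assoc, h1, pow_succ]
      linarith [ka_nonneg m m (n + d + 1)]
  have h3 : ∀ n, Ψ (n + (2 * m + 3)) ≤ (2 ^ (2 * m + 3) - 1) * Ψ n := by
    intro n
    have a1 := h1 (n + (2 * m + 2))
    have a2 := h1 (n + (2 * m + 1))
    have a3 := h2 (2 * m + 1) n
    have a4 := ka_ge m (m + 1) n m (by omega)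
    have a5 := ka_ge m (m + 1) (n + 1) m (by omega)
    rw [show n + 2 * (m + 1) = n + (2 * m + 1) + 1 by ring] at a4
    rw [show n + 1 + 2 * (m + 1) = n + (2 * m + 2) + 1 by ring] at a5
    rw [show n + (2 * m + 1) + 1 = n + (2 * m + 2) by ring] at a2 a4
    rw [show n + (2 * m + 2) + 1 = n + (2 * m + 3) by ring] at a1 a5
    have a6 := ka_nonneg m 0 n
    have a7 : Ψ n = ka m 0 (n + 1) + ka m 0 n := rfl
    have a8 : (2 : ℚ) ^ (2 * m + 3) = 4 * 2 ^ (2 * m + 1) := by ring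
    rw [a8]
    nlinarith
  set N : ℚ := 2 ^ (2 * m + 3) with hN
  have hN1 : 1 ≤ N := one_le_pow₀ (by norm_num)
  have h4 : ∀ k, Ψ (k * (2 * m + 3)) ≤ (N - 1) ^ k * 3 := by
    intro k
    induction k with
    | zero =>
      have : ∀ n, ka m 0 n ≤ 2 ^ n := fun n => by
        rw [← sum_one]; exact Finset.sum_le_sum fun l _ => by split_ifs <;> norm_num
      have a := this 0
      have b := this 1
      simp only [zero_mul, Ψ, pow_zero, zero_add] at a ⊢
      linarith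
    | succ k ih =>
      rw [add_mul, one_mul]
      refine (h3 _).trans ?_
      rw [pow_succ', mul_assoc]
      exact mul_le_mul_of_nonneg_left ih (by linarith)
  obtain ⟨k, hk⟩ := exists_pow_lt_of_lt_one (show (0 : ℚ) < 1 / 6 by norm_num)
    (show (N - 1) / N < 1 by rw [div_lt_one (by linarith)]; linarith)
  rw [div_pow, div_lt_iff₀ (by positivity)] at hk
  refine ⟨k * (2 * m + 3), fun n hn => ?_⟩
  obtain ⟨d, rfl⟩ := Nat.exists_eq_add_of_le hn
  have a1 := h2 d (k * (2 * m + 3))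
  have a2 := h4 k
  have a3 : ka m 0 (k * (2 * m + 3) + d) ≤ Ψ (k * (2 * m + 3) + d) := by
    simp only [Ψ]; linarith [ka_nonneg m 0 (k * (2 * m + 3) + d + 1)]
  have a4 : (2 : ℚ) ^ (k * (2 * m + 3) + d) = 2 ^ d * N ^ k := by
    rw [hN, ← pow_mul]; ring
  have a5 : (0 : ℚ) < 2 ^ d := by positivity
  rw [a4]
  nlinarith

theorem fiber_ge (m n : ℕ) (l : List ℤ) (hl : l ∈ Ch n) (h : MM m l) :
    m ≤ (Fn (n + 1) l).card + (Fn (n + 2) l).card := by
  obtain ⟨hv, hD⟩ := (mem_Ch n l).mp hl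
  obtain ⟨s, s0, s3, hs⟩ : ∃ s : ℤ, 0 ≤ s ∧ s ≤ 3 ∧ vd (dt l) s = n := by
    cases hA : (dt l).sA
    · exact ⟨1, by omega, by omega, by simp [vd, hA, hD]⟩
    · exact ⟨0, by omega, by omega, by simp [vd, hA, hD]⟩
  have hm := vN_mod l hv s s0 s3
  have key : ∀ e : ℤ, e % 4 = s → ¬ In l e → Reach (vd (dt l) s + 2) (l, e) →
      e ∈ Fn (n + 1) l ∪ Fn (n + 2) l := by
    intro e he hn hr
    have h1 := len_le hr
    have h2 := vd_le _ l e hv (reach_len' l hv e)
    have h3 := mt (len_in l hv e).mpr hn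
    rw [he] at h2 h3
    rw [Finset.mem_union, mem_Fn _ l hv, mem_Fn _ l hv]
    by_cases h4 : len (l, e) = n + 1
    · exact Or.inl ⟨h4, hn⟩
    · exact Or.inr ⟨by omega, hn⟩
  refine le_trans ?_ (Finset.card_union_le _ _)
  rw [← Finset.card_range m]
  rcases at_MM m l hv h with h1 | h1
  · refine Finset.card_le_card_of_injOn (fun j : ℕ => vN (dt l) s - 4 * (j + 1)) (fun j hj => ?_)
      (fun a _ b _ hab => by simpa using hab)
    have hj : j < m := by simpa using hj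
    have e1 : (vN (dt l) s - 4 * (j + 1)) % 4 = s := by omega
    beta_reduce
    exact key _ e1 (by simp only [In, e1]; omega) (h1 s s0 s3 _ e1 (by omega) (by omega))
  · refine Finset.card_le_card_of_injOn (fun j : ℕ => vN (dt l) s + 4 * vq (dt l) s + 4 * (j + 1))
      (fun j hj => ?_) (fun a _ b _ hab => by simpa using hab)
    have hj : j < m := by simpa using hj
    have e1 : (vN (dt l) s + 4 * vq (dt l) s + 4 * (j + 1)) % 4 = s := by omega
    beta_reduce
    exact key _ e1 (by simp only [In, e1]; omega) (h1 s s0 s3 _ e1 (by omega) (by omega))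

theorem tn_ge (m n : ℕ) : m * (2 ^ n - ka m 0 n) ≤ tn (n + 1) + tn (n + 2) := by
  classical
  have h1 : ∀ k, n ≤ k → ∑ l ∈ Ch n, ((Fn k l).card : ℚ) ≤ tn k := fun k hk =>
    Finset.sum_le_sum_of_subset_of_nonneg (fun l hl => (mem_Ball k l).mpr
      ⟨((mem_Ch n l).mp hl).1, ((mem_Ch n l).mp hl).2.le.trans hk⟩) fun _ _ _ => by positivity
  refine le_trans ?_ (add_le_add (h1 _ (by omega)) (h1 _ (by omega)))
  rw [← sum_one, ka, ← Finset.sum_sub_distrib, Finset.mul_sum, ← Finset.sum_add_distrib]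
  refine Finset.sum_le_sum fun l hl => ?_
  by_cases h : MM m l
  · simp only [h, not_true, false_and, if_false, sub_zero, mul_one]
    exact_mod_cast fiber_ge m n l hl h
  · simp only [h, not_false_iff, zero_le, and_self, if_true, sub_self, mul_zero]
    positivity

theorem tn_nonneg (k : ℕ) : 0 ≤ tn k := Finset.sum_nonneg fun _ _ => by positivity

theorem main : ¬ IsAlgebraic ℚ[X] (PowerSeries.mk fun k =>
    (Set.ncard {p : List ℤ × ℤ | Vd p.1 ∧ len p = k} : ℚ)) := by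
  intro h
  have h1 : IsAlgebraic ℚ[X] (PowerSeries.mk tn) := by
    have := alg_lin _ _ 1 (-1) h alg_c0
    simpa [sphere_eq] using this
  have h2 := alg_lin _ _ 1 1 (alg_sh _ h1 1) (alg_sh _ h1 2)
  refine nonalg _ (fun n => ?_) (fun m => ?_) 1152 (fun j n => ?_) h2
  · rw [PowerSeries.coeff_mk]; linarith [tn_nonneg (n + 1), tn_nonneg (n + 2)]
  · obtain ⟨n0, h0⟩ := ka_small (2 * m)
    refine ⟨n0, fun n hn => ?_⟩
    rw [PowerSeries.coeff_mk]
    have a1 := tn_ge (2 * m) n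
    have a2 := h0 n hn
    have a3 : (0 : ℚ) ≤ m := by positivity
    push_cast at a1
    nlinarith
  · rw [PowerSeries.coeff_mk]
    have a1 := tn_le j (n + 1)
    have a2 := tn_le j (n + 2)
    have a3 : (1 : ℚ) / 4 ^ j ≤ 1 := by
      rw [div_le_one (by positivity)]; exact one_le_pow₀ (by norm_num)
    have a4 : (0 : ℚ) ≤ n / 4 ^ j := by positivity
    have a5 : (0 : ℚ) ≤ j := by positivity
    have a6 : (0 : ℚ) < 2 ^ n := by positivity
    have e1 : (64 : ℚ) * 2 ^ (n + 1) * (j + 1 + ((n + 1 : ℕ) : ℚ) / 4 ^ j) =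
        128 * 2 ^ n * (j + 1 + n / 4 ^ j + 1 / 4 ^ j) := by push_cast; ring
    have e2 : (64 : ℚ) * 2 ^ (n + 2) * (j + 1 + ((n + 2 : ℕ) : ℚ) / 4 ^ j) =
        256 * 2 ^ n * (j + 1 + n / 4 ^ j + 2 * (1 / 4 ^ j)) := by push_cast; ring
    rw [e1] at a1; rw [e2] at a2
    nlinarith

end Pool.Agent.H.MP_620157_al
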